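import Mathlib

/-!
The trace identity for alternating maps on a space of the same dimension.
-/

set_option autoImplicit false

namespace Pool.Agent.L0h61.AED

open Module

section AltTrace

variable {V W ι : Type*} [Fintype ι] [DecidableEq ι] [AddCommGroup V] [Module ℝ V]
  [AddCommGroup W] [Module ℝ W]

/-- `x ↦ ∑ i, f (x with x_i replaced by L x_i)` as a multilinear map. -/
noncomputable def altM (f : V [⋀^ι]→ₗ[ℝ] W) (L : V →ₗ[ℝ] V) :
    MultilinearMap ℝ (fun _ : ι => V) W :=
  ∑ i, f.toMultilinearMap.compLinearMap (Function.update (fun _ => LinearMap.id) i L)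

lemma altM_apply (f : V [⋀^ι]→ₗ[ℝ] W) (L : V →ₗ[ℝ] V) (x : ι → V) :
    altM f L x = ∑ i, f (Function.update x i (L (x i))) := by
  unfold altM
  rw [MultilinearMap.sum_apply]
  refine Finset.sum_congr rfl fun i _ => ?_
  rw [MultilinearMap.compLinearMap_apply]
  show f _ = f _
  congr 1
  funext j
  by_cases h : j = i
  · subst h; simp
  · simp [Function.update_of_ne h]

/-- `x ↦ ∑ i, f (x with x_i replaced by L x_i)` as an alternating map. -/
noncomputable def altD (f : V [⋀^ι]→ₗ[ℝ] W) (L : V →ₗ[ℝ] V) : V [⋀^ι]→ₗ[ℝ] W :=
  { altM f L with
    map_eq_zero_of_eq' := by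
      intro x a b hab hne
      show altM f L x = 0
      rw [altM_apply]
      have h1 : ∀ i, i ≠ a → i ≠ b → f (Function.update x i (L (x i))) = 0 := by
        intro i hia hib
        refine f.map_eq_zero_of_eq _ (i := a) (j := b) ?_ hne
        rw [Function.update_of_ne hia.symm, Function.update_of_ne hib.symm, hab]
      rw [← Finset.add_sum_erase _ _ (Finset.mem_univ a),
        ← Finset.add_sum_erase _ _ (Finset.mem_erase.mpr ⟨hne.symm, Finset.mem_univ b⟩),
        Finset.sum_eq_zero, add_zero]
      · have h2 : Function.update x b (L (x b)) =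
            (Function.update x a (L (x a))) ∘ Equiv.swap a b := by
          funext j
          by_cases hja : j = a
          · subst hja
            simp [Function.update_of_ne hne, Function.update_of_ne hne.symm, hab]
          · by_cases hjb : j = b
            · subst hjb
              simp [hab]
            · simp [Function.update_of_ne hja, Function.update_of_ne hjb,
                Equiv.swap_apply_of_ne_of_ne hja hjb]
        rw [h2, f.map_swap _ hne]
        simp
      · intro i hi
        rw [Finset.mem_erase, Finset.mem_erase] at hi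
        exact h1 i hi.2.1 hi.1 }

lemma altD_apply (f : V [⋀^ι]→ₗ[ℝ] W) (L : V →ₗ[ℝ] V) (x : ι → V) :
    altD f L x = ∑ i, f (Function.update x i (L (x i))) := altM_apply f L x

theorem alt_trace (b : Basis ι ℝ V) (f : V [⋀^ι]→ₗ[ℝ] W) (L : V →ₗ[ℝ] V) (x : ι → V) :
    ∑ i, f (Function.update x i (L (x i))) = (∑ i, b.repr (L (b i)) i) • f x := by
  rw [← altD_apply]
  have : altD f L = (∑ i, b.repr (L (b i)) i) • f := by
    refine Basis.ext_alternating b fun ν hν => ?_
    rw [altD_apply, AlternatingMap.smul_apply]
    have hbij : Function.Bijective ν := Finite.injective_iff_bijective.mp hν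
    have key : ∀ i, f (Function.update (fun i => b (ν i)) i (L (b (ν i)))) =
        b.repr (L (b (ν i))) (ν i) • f (fun i => b (ν i)) := by
      intro i
      conv_lhs => rw [← b.sum_repr (L (b (ν i)))]
      rw [AlternatingMap.map_update_sum]
      rw [Finset.sum_eq_single (ν i)]
      · rw [AlternatingMap.map_update_smul]
        congr 2
        funext j
        by_cases h : j = i
        · subst h; simp
        · simp [Function.update_of_ne h]
      · intro j _ hj
        rw [AlternatingMap.map_update_smul]
        obtain ⟨i', rfl⟩ := hbij.2 j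
        have hii : i' ≠ i := fun h => hj (by rw [h])
        rw [f.map_eq_zero_of_eq _ (i := i) (j := i') ?_ hii.symm, smul_zero]
        simp [Function.update_of_ne hii]
      · intro h
        exact absurd (Finset.mem_univ _) h
    simp_rw [key]
    rw [← Finset.sum_smul]
    congr 1
    exact Fintype.sum_bijective ν hbij _ _ (fun _ => rfl)
  rw [this, AlternatingMap.smul_apply]

end AltTrace

end Pool.Agent.L0h61.AED
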