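import Mathlib

/-!
Diagram (trace) functions `T σ` on index words and their spans `TS`, closed under relabelling,
tensor product, transposition and contraction.
-/

set_option autoImplicit false

namespace Pool.Agent.L0h61.AED

open scoped Classical in
/-- The diagram function of a bijection `σ` from out-slots to in-slots. -/
noncomputable def T {k : ℕ} {O I : Type} (σ : O ≃ I) : (O → Fin k) → (I → Fin k) → ℝ :=
  fun u v => if u = v ∘ σ then 1 else 0

/-- Span of the diagram functions. -/
noncomputable def TS (k : ℕ) (O I : Type) : Submodule ℝ ((O → Fin k) → (I → Fin k) → ℝ) :=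
  Submodule.span ℝ (Set.range (T (k := k) (O := O) (I := I)))

variable {k : ℕ}

lemma T_mem {O I : Type} (σ : O ≃ I) : T (k := k) σ ∈ TS k O I :=
  Submodule.subset_span ⟨σ, rfl⟩

lemma T_apply {O I : Type} (σ : O ≃ I) (u : O → Fin k) (v : I → Fin k) [Decidable (u = v ∘ σ)] :
    T σ u v = if u = v ∘ σ then 1 else 0 := by
  unfold T; congr

/-- A linear map sending generators into a submodule sends the span into it. -/
lemma TS_map {O I : Type} {W : Type*} [AddCommGroup W] [Module ℝ W]
    (L : ((O → Fin k) → (I → Fin k) → ℝ) →ₗ[ℝ] W) (S : Submodule ℝ W)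
    (h : ∀ σ : O ≃ I, L (T σ) ∈ S) {f : (O → Fin k) → (I → Fin k) → ℝ} (hf : f ∈ TS k O I) :
    L f ∈ S := by
  have : TS k O I ≤ S.comap L := by
    unfold TS
    rw [Submodule.span_le]
    rintro _ ⟨σ, rfl⟩
    exact h σ
  exact this hf

/-! ### Relabelling -/

/-- Relabelling as a linear map. -/
def relL {O I O' I' : Type} (e : O → O') (e' : I → I') :
    ((O → Fin k) → (I → Fin k) → ℝ) →ₗ[ℝ] ((O' → Fin k) → (I' → Fin k) → ℝ) where
  toFun f := fun u v => f (u ∘ e) (v ∘ e')
  map_add' _ _ := rfl
  map_smul' _ _ := rfl

lemma T_relabel {O I O' I' : Type} (e : O ≃ O') (e' : I ≃ I') (σ : O ≃ I)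
    (u : O' → Fin k) (v : I' → Fin k) :
    T σ (u ∘ e) (v ∘ e') = T ((e.symm.trans σ).trans e') u v := by
  classical
  rw [T_apply, T_apply]
  congr 1
  apply propext
  constructor
  · intro h
    funext x
    have := congrFun h (e.symm x)
    simpa using this
  · intro h
    funext x
    have := congrFun h (e x)
    simpa using this

lemma TS_relabel {O I O' I' : Type} (e : O ≃ O') (e' : I ≃ I')
    {f : (O → Fin k) → (I → Fin k) → ℝ} (hf : f ∈ TS k O I) :
    (fun (u : O' → Fin k) (v : I' → Fin k) => f (u ∘ e) (v ∘ e')) ∈ TS k O' I' := by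
  refine TS_map (relL e e') (TS k O' I') (fun σ => ?_) hf
  have : relL (k := k) e e' (T σ) = T ((e.symm.trans σ).trans e') := by
    funext u v
    exact T_relabel e e' σ u v
  rw [this]
  exact T_mem _

/-! ### Transposition -/

/-- Transposition as a linear map. -/
def trL {O I : Type} :
    ((O → Fin k) → (I → Fin k) → ℝ) →ₗ[ℝ] ((I → Fin k) → (O → Fin k) → ℝ) where
  toFun f := fun v u => f u v
  map_add' _ _ := rfl
  map_smul' _ _ := rfl

lemma T_symm {O I : Type} (σ : O ≃ I) (u : O → Fin k) (v : I → Fin k) :
    T σ.symm v u = T σ u v := by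
  classical
  rw [T_apply, T_apply]
  congr 1
  apply propext
  constructor
  · intro h
    funext x
    have := congrFun h (σ x)
    simpa using this.symm
  · intro h
    funext x
    have := congrFun h (σ.symm x)
    simpa using this.symm

lemma TS_trans {O I : Type} {f : (O → Fin k) → (I → Fin k) → ℝ} (hf : f ∈ TS k O I) :
    (fun v u => f u v) ∈ TS k I O := by
  refine TS_map trL (TS k I O) (fun σ => ?_) hf
  have : trL (k := k) (T σ) = T σ.symm := by
    funext u v
    exact (T_symm σ v u).symm
  rw [this]
  exact T_mem _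

/-! ### Tensor products -/

/-- Tensoring on the right by a fixed function. -/
def tenL {O I O' I' : Type} (g : (O' → Fin k) → (I' → Fin k) → ℝ) :
    ((O → Fin k) → (I → Fin k) → ℝ) →ₗ[ℝ] ((O ⊕ O' → Fin k) → (I ⊕ I' → Fin k) → ℝ) where
  toFun f := fun u v => f (u ∘ Sum.inl) (v ∘ Sum.inl) * g (u ∘ Sum.inr) (v ∘ Sum.inr)
  map_add' _ _ := by funext u v; simp [add_mul]
  map_smul' _ _ := by funext u v; simp [mul_assoc]

/-- Tensoring on the left by a fixed function. -/
def tenR {O I O' I' : Type} (f : (O → Fin k) → (I → Fin k) → ℝ) :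
    ((O' → Fin k) → (I' → Fin k) → ℝ) →ₗ[ℝ] ((O ⊕ O' → Fin k) → (I ⊕ I' → Fin k) → ℝ) where
  toFun g := fun u v => f (u ∘ Sum.inl) (v ∘ Sum.inl) * g (u ∘ Sum.inr) (v ∘ Sum.inr)
  map_add' _ _ := by funext u v; simp [mul_add]
  map_smul' c g := by funext u v; simp [mul_left_comm]

lemma T_tensor {O I O' I' : Type} (σ : O ≃ I) (τ : O' ≃ I')
    (u : O ⊕ O' → Fin k) (v : I ⊕ I' → Fin k) :
    T σ (u ∘ Sum.inl) (v ∘ Sum.inl) * T τ (u ∘ Sum.inr) (v ∘ Sum.inr) =
      T (Equiv.sumCongr σ τ) u v := by
  classical
  rw [T_apply, T_apply, T_apply, ite_zero_mul_ite_zero, one_mul]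
  congr 1
  apply propext
  constructor
  · rintro ⟨h1, h2⟩
    funext x
    rcases x with x | x
    · exact congrFun h1 x
    · exact congrFun h2 x
  · intro h
    exact ⟨funext fun x => congrFun h (Sum.inl x), funext fun x => congrFun h (Sum.inr x)⟩

lemma TS_tensor {O I O' I' : Type} {f : (O → Fin k) → (I → Fin k) → ℝ} (hf : f ∈ TS k O I)
    {g : (O' → Fin k) → (I' → Fin k) → ℝ} (hg : g ∈ TS k O' I') :
    (fun (u : O ⊕ O' → Fin k) (v : I ⊕ I' → Fin k) =>
      f (u ∘ Sum.inl) (v ∘ Sum.inl) * g (u ∘ Sum.inr) (v ∘ Sum.inr)) ∈ TS k (O ⊕ O') (I ⊕ I') := by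
  refine TS_map (tenL g) (TS k (O ⊕ O') (I ⊕ I')) (fun σ => ?_) hf
  have h2 : tenL (k := k) (O := O) (I := I) g (T σ) = tenR (T σ) g := rfl
  rw [h2]
  refine TS_map (tenR (T σ)) (TS k (O ⊕ O') (I ⊕ I')) (fun τ => ?_) hg
  have : tenR (k := k) (T σ) (T τ) = T (Equiv.sumCongr σ τ) := by
    funext u v
    exact T_tensor σ τ u v
  rw [this]
  exact T_mem _

/-! ### Contraction -/

/-- Extend a function by a value at `none`. -/
def ext {J : Type} {α : Type*} (r : α) (u : J → α) : Option J → α := fun x => x.elim r u

@[simp] lemma ext_none {J : Type} {α : Type*} (r : α) (u : J → α) : ext r u none = r := rfl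
@[simp] lemma ext_some {J : Type} {α : Type*} (r : α) (u : J → α) (j : J) :
    ext r u (some j) = u j := rfl

lemma T_contract {O I : Type} (σ : Option O ≃ Option I) (u : O → Fin k) (v : I → Fin k) :
    ∑ r : Fin k, T σ (ext r u) (ext r v) =
      (if σ none = none then (k : ℝ) else 1) * T (Equiv.removeNone σ) u v := by
  classical
  by_cases h0 : σ none = none
  · rw [if_pos h0]
    have key : ∀ r : Fin k, T σ (ext r u) (ext r v) = T (Equiv.removeNone σ) u v := by
      intro r
      rw [T_apply, T_apply]
      congr 1
      apply propext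
      have hs : ∀ x, σ (some x) = some (Equiv.removeNone σ x) := by
        intro x
        rw [Equiv.removeNone_some]
        rcases hx : σ (some x) with _ | y
        · rw [← h0] at hx
          exact absurd (σ.injective hx) (by simp)
        · exact ⟨y, rfl⟩
      constructor
      · intro h
        funext x
        have := congrFun h (some x)
        simp only [ext_some, Function.comp, hs] at this
        exact this
      · intro h
        funext x
        rcases x with _ | x
        · simp [h0]
        · simp only [ext_some, Function.comp, hs]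
          exact congrFun h x
    simp [key]
  · rw [if_neg h0, one_mul]
    obtain ⟨b, hb⟩ := Option.ne_none_iff_exists'.mp h0
    have ha' : σ.symm none ≠ none := fun h => h0 (by rw [← h]; simp)
    obtain ⟨a, ha⟩ := Option.ne_none_iff_exists'.mp ha'
    have ha2 : σ (some a) = none := by rw [← ha]; simp
    have hra : Equiv.removeNone σ a = b := by
      have := Equiv.removeNone_none σ ha2
      rw [hb] at this
      exact Option.some_injective _ this
    have hrs : ∀ x, x ≠ a → σ (some x) = some (Equiv.removeNone σ x) := by
      intro x hx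
      rw [Equiv.removeNone_some]
      rcases hy : σ (some x) with _ | y
      · rw [← ha2] at hy
        exact absurd (Option.some_injective _ (σ.injective hy)) hx
      · exact ⟨y, rfl⟩
    have key : ∀ r : Fin k, T σ (ext r u) (ext r v) =
        if r = v b then T (Equiv.removeNone σ) u v else 0 := by
      intro r
      rw [T_apply, T_apply]
      by_cases hr : r = v b
      · rw [if_pos hr]
        congr 1
        apply propext
        constructor
        · intro h
          funext x
          have hx := congrFun h (some x)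
          by_cases hxa : x = a
          · subst hxa
            simp only [ext_some, Function.comp, ha2, ext_none] at hx
            simp only [Function.comp, hra, hx, hr]
          · simp only [ext_some, Function.comp, hrs x hxa] at hx
            exact hx
        · intro h
          funext x
          rcases x with _ | x
          · simp [hb, hr]
          · have hx := congrFun h x
            by_cases hxa : x = a
            · subst hxa
              simp only [ext_some, Function.comp, ha2, ext_none]
              simp only [Function.comp, hra] at hx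
              rw [hx, hr]
            · simp only [ext_some, Function.comp, hrs x hxa]
              exact hx
      · rw [if_neg hr, if_neg]
        intro h
        apply hr
        have := congrFun h none
        simpa [hb] using this
    simp [key]

/-- One-slot contraction as a linear map. -/
def ctrL {O I : Type} :
    ((Option O → Fin k) → (Option I → Fin k) → ℝ) →ₗ[ℝ] ((O → Fin k) → (I → Fin k) → ℝ) where
  toFun f := fun u v => ∑ r : Fin k, f (ext r u) (ext r v)
  map_add' _ _ := by funext u v; simp [Finset.sum_add_distrib]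
  map_smul' _ _ := by funext u v; simp [Finset.mul_sum]

lemma TS_contract {O I : Type} {f : (Option O → Fin k) → (Option I → Fin k) → ℝ}
    (hf : f ∈ TS k (Option O) (Option I)) :
    (fun (u : O → Fin k) (v : I → Fin k) => ∑ r : Fin k, f (ext r u) (ext r v)) ∈ TS k O I := by
  refine TS_map ctrL (TS k O I) (fun σ => ?_) hf
  have : ctrL (k := k) (T σ) =
      (if σ none = none then (k : ℝ) else 1) • T (Equiv.removeNone σ) := by
    funext u v
    exact T_contract σ u v
  rw [this]
  exact Submodule.smul_mem _ _ (T_mem _)

/-- reindex `O ⊕ Fin (d+1)` as `Option (O ⊕ Fin d)`. -/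
def sumFinSucc (O : Type) (d : ℕ) : O ⊕ Fin (d + 1) ≃ Option (O ⊕ Fin d) where
  toFun x := Sum.elim (fun o => some (Sum.inl o)) (fun i => Fin.cases none (fun j => some (Sum.inr j)) i) x
  invFun y := y.elim (Sum.inr 0) (fun z => Sum.elim (fun o => Sum.inl o) (fun j => Sum.inr j.succ) z)
  left_inv x := by
    rcases x with o | i
    · rfl
    · refine Fin.cases ?_ (fun j => ?_) i
      · rfl
      · rfl
  right_inv y := by
    rcases y with _ | (o | j)
    · rfl
    · rfl
    · rfl

lemma TS_contractFin (d : ℕ) : ∀ {O I : Type}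
    {f : (O ⊕ Fin d → Fin k) → (I ⊕ Fin d → Fin k) → ℝ}
    (_ : f ∈ TS k (O ⊕ Fin d) (I ⊕ Fin d)),
    (fun (u : O → Fin k) (v : I → Fin k) =>
      ∑ z : Fin d → Fin k, f (Sum.elim u z) (Sum.elim v z)) ∈ TS k O I := by
  induction d with
  | zero =>
    intro O I f hf
    have h := TS_relabel (Equiv.sumEmpty O (Fin 0)) (Equiv.sumEmpty I (Fin 0)) hf
    convert h using 1
    funext u v
    simp only [Finset.univ_unique, Finset.sum_singleton]
    congr 1
    · funext x; rcases x with x | x
      · rfl
      · exact x.elim0
    · funext x; rcases x with x | x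
      · rfl
      · exact x.elim0
  | succ d ih =>
    intro O I f hf
    have h := TS_relabel (sumFinSucc O d) (sumFinSucc I d) hf
    have h2 := ih (TS_contract h)
    convert h2 using 1
    funext u v
    rw [← (Fin.consEquiv (fun _ : Fin (d+1) => Fin k)).sum_comp, Fintype.sum_prod_type,
      Finset.sum_comm]
    refine Finset.sum_congr rfl fun z _ => Finset.sum_congr rfl fun r _ => ?_
    congr 1
    · funext x; rcases x with x | x
      · rfl
      · refine Fin.cases ?_ (fun j => ?_) x
        · rfl
        · rfl
    · funext x; rcases x with x | x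
      · rfl
      · refine Fin.cases ?_ (fun j => ?_) x
        · rfl
        · rfl

lemma TS_contractAll {O I Z : Type} [Fintype Z] [DecidableEq Z]
    {f : (O ⊕ Z → Fin k) → (I ⊕ Z → Fin k) → ℝ}
    (hf : f ∈ TS k (O ⊕ Z) (I ⊕ Z)) :
    (fun (u : O → Fin k) (v : I → Fin k) =>
      ∑ z : Z → Fin k, f (Sum.elim u z) (Sum.elim v z)) ∈ TS k O I := by
  classical
  let e := Fintype.equivFin Z
  have h := TS_relabel (Equiv.sumCongr (Equiv.refl O) e) (Equiv.sumCongr (Equiv.refl I) e) hf
  have h2 := TS_contractFin _ h
  convert h2 using 1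
  funext u v
  rw [← (Equiv.arrowCongr e (Equiv.refl (Fin k))).sum_comp]
  refine Finset.sum_congr rfl fun z _ => ?_
  congr 1
  · funext x; rcases x with x | x
    · rfl
    · simp [Equiv.arrowCongr]
  · funext x; rcases x with x | x
    · rfl
    · simp [Equiv.arrowCongr]

end Pool.Agent.L0h61.AED
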