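import Mathlib
import Pool.Agent.L0h61.AED.Diag
import Pool.Agent.L0h61.AED.AltTrace

/-!
Trace functions on matrices, multilinear monomials, the Capelli element and trace absorption.
-/

set_option autoImplicit false

namespace Pool.Agent.L0h61.AED

open Module Matrix

/-- k by k real matrices -/
abbrev Mk (k : ℕ) := Matrix (Fin k) (Fin k) ℝ

/-- trace function of a permutation -/
noncomputable def Tm {k : ℕ} {J : Type} [Fintype J] [DecidableEq J] (σ : Equiv.Perm J)
    (x : J → Mk k) : ℝ := ∑ v : J → Fin k, ∏ a, x a (v a) (v (σ a))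

variable {k : ℕ}

/-- matrix units of a word -/
def Ew {J : Type} (w : J → Fin k × Fin k) : J → Mk k := fun a => Matrix.single (w a).1 (w a).2 1

lemma Tm_Ew {J : Type} [Fintype J] [DecidableEq J] (σ : Equiv.Perm J) (w : J → Fin k × Fin k) :
    Tm σ (Ew w) = T σ (fun a => (w a).2) (fun a => (w a).1) := by
  classical
  unfold Tm Ew
  rw [T_apply, Finset.sum_eq_single (fun a => (w a).1)]
  · simp only [Matrix.single_apply, true_and]
    rw [Finset.prod_ite_zero]
    simp only [Finset.prod_const_one]
    congr 1
    apply propext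
    constructor
    · intro h
      funext a
      exact h a (Finset.mem_univ _)
    · intro h a _
      exact congrFun h a
  · intro v _ hv
    obtain ⟨a, ha⟩ := Function.ne_iff.mp hv
    refine Finset.prod_eq_zero (Finset.mem_univ a) ?_
    rw [Matrix.single_apply, if_neg]
    rintro ⟨h1, _⟩
    exact ha h1.symm
  · intro h
    exact absurd (Finset.mem_univ _) h

lemma Tm_relabel {J J' : Type} [Fintype J] [DecidableEq J] [Fintype J'] [DecidableEq J']
    (e : J ≃ J') (σ : Equiv.Perm J') (x : J' → Mk k) :
    Tm σ x = Tm ((e.trans σ).trans e.symm) (x ∘ e) := by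
  unfold Tm
  rw [← (Equiv.arrowCongr e (Equiv.refl (Fin k))).sum_comp]
  refine Finset.sum_congr rfl fun v _ => ?_
  rw [← e.prod_comp]
  refine Finset.prod_congr rfl fun a _ => ?_
  simp [Equiv.arrowCongr]

section Insert

variable {J : Type} [Fintype J] [DecidableEq J]

lemma Tm_none (σ : Equiv.Perm J) (x : Option J → Mk k) :
    Tm (Equiv.optionCongr σ : Equiv.Perm (Option J)) x = (x none).trace * Tm σ (x ∘ some) := by
  unfold Tm
  rw [← Equiv.piOptionEquivProd.symm.sum_comp, Fintype.sum_prod_type, Matrix.trace,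
    Finset.sum_mul_sum]
  refine Finset.sum_congr rfl fun r _ => Finset.sum_congr rfl fun v _ => ?_
  rw [Fintype.prod_option]
  simp [Equiv.piOptionEquivProd]

lemma Tm_some (σ : Equiv.Perm J) (b : J) (x : Option J → Mk k) :
    Tm (Equiv.swap none (some b) * Equiv.optionCongr σ : Equiv.Perm (Option J)) x =
      Tm σ (Function.update (x ∘ some) (σ.symm b) (x (some (σ.symm b)) * x none)) := by
  unfold Tm
  rw [← Equiv.piOptionEquivProd.symm.sum_comp, Fintype.sum_prod_type, Finset.sum_comm]
  refine Finset.sum_congr rfl fun v _ => ?_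
  rw [← Finset.mul_prod_erase Finset.univ _ (Finset.mem_univ (σ.symm b))]
  rw [Function.update_self, Equiv.apply_symm_apply, Matrix.mul_apply, Finset.sum_mul]
  refine Finset.sum_congr rfl fun r _ => ?_
  rw [Fintype.prod_option, ← Finset.mul_prod_erase Finset.univ _ (Finset.mem_univ (σ.symm b))]
  have h1 : (Equiv.swap none (some b) * Equiv.optionCongr σ : Equiv.Perm (Option J)) none
      = some b := by simp
  have h2 : (Equiv.swap none (some b) * Equiv.optionCongr σ : Equiv.Perm (Option J))
      (some (σ.symm b)) = none := by simp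
  have h3 : ∀ j, j ≠ σ.symm b → (Equiv.swap none (some b) * Equiv.optionCongr σ :
      Equiv.Perm (Option J)) (some j) = some (σ j) := by
    intro j hj
    simp only [Equiv.Perm.coe_mul, Function.comp, Equiv.optionCongr_apply, Option.map_some]
    refine Equiv.swap_apply_of_ne_of_ne (by simp) ?_
    intro h
    apply hj
    rw [← Option.some_injective _ h]
    simp
  rw [h1, h2]
  have h4 : ∀ (y : Option J), (Equiv.piOptionEquivProd.symm (r, v) : Option J → Fin k) y =
      y.elim r v := by
    intro y
    cases y <;> rfl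
  simp only [h4, Option.elim_some, Option.elim_none]
  have h5 : ∏ j ∈ Finset.univ.erase (σ.symm b), x (some j) (v j)
      (((Equiv.swap none (some b) * Equiv.optionCongr σ : Equiv.Perm (Option J)) (some j)).elim r v)
      = ∏ j ∈ Finset.univ.erase (σ.symm b), Function.update (x ∘ some) (σ.symm b)
        (x (some (σ.symm b)) * x none) j (v j) (v (σ j)) := by
    refine Finset.prod_congr rfl fun j hj => ?_
    rw [Finset.mem_erase] at hj
    rw [h3 j hj.1, Function.update_of_ne hj.1]
    rfl
  rw [h5]
  ring

end Insert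

section NNs

/-- the monomial of a list -/
noncomputable def mon {J : Type} (l : List J) (x : J → Mk k) : Mk k := (l.map x).prod

variable (k) in
/-- span of multilinear monomials -/
noncomputable def NN (J : Type) : Submodule ℝ ((J → Mk k) → Mk k) :=
  Submodule.span ℝ {g | ∃ l : List J, l.Nodup ∧ (∀ j, j ∈ l) ∧ g = mon l}

lemma mon_mem {J : Type} (l : List J) (h1 : l.Nodup) (h2 : ∀ j, j ∈ l) :
    mon (k := k) l ∈ NN k J := Submodule.subset_span ⟨l, h1, h2, rfl⟩

/-- precomposition as a linear map -/
def preL {α β γ : Type} [AddCommGroup γ] [Module ℝ γ] (θ : α → β) : (β → γ) →ₗ[ℝ] (α → γ) where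
  toFun g := fun x => g (θ x)
  map_add' _ _ := rfl
  map_smul' _ _ := rfl

lemma NN_map {J J' : Type} (θ : (J' → Mk k) → (J → Mk k))
    (h : ∀ l : List J, l.Nodup → (∀ j, j ∈ l) → (fun x => mon l (θ x)) ∈ NN k J')
    {g : (J → Mk k) → Mk k} (hg : g ∈ NN k J) : (fun x => g (θ x)) ∈ NN k J' := by
  have : NN k J ≤ (NN k J').comap (preL θ) := by
    unfold NN
    rw [Submodule.span_le]
    rintro _ ⟨l, h1, h2, rfl⟩
    exact h l h1 h2
  exact this hg

lemma NN_relabel {J J' : Type} (e : J ≃ J') {g : (J → Mk k) → Mk k} (hg : g ∈ NN k J) :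
    (fun x : J' → Mk k => g (x ∘ e)) ∈ NN k J' := by
  refine NN_map (fun x => x ∘ e) (fun l h1 h2 => ?_) hg
  have : (fun x : J' → Mk k => mon l (x ∘ e)) = mon (l.map e) := by
    funext x
    simp [mon]
  rw [this]
  refine mon_mem _ (h1.map e.injective) (fun j => ?_)
  rw [List.mem_map]
  exact ⟨e.symm j, h2 _, by simp⟩

section Subst

variable {J : Type} [DecidableEq J]

lemma map_update_of_notMem (l : List J) (j0 : J) (h : j0 ∉ l) (x : Option J → Mk k) (y : Mk k) :
    l.map (Function.update (x ∘ some) j0 y) = (l.map some).map x := by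
  rw [List.map_map]
  refine List.map_congr_left fun j hj => ?_
  rw [Function.update_of_ne]
  rintro rfl
  exact h hj

lemma NN_substL (j0 : J) {g : (J → Mk k) → Mk k} (hg : g ∈ NN k J) :
    (fun x : Option J → Mk k =>
      g (Function.update (x ∘ some) j0 (x none * x (some j0)))) ∈ NN k (Option J) := by
  refine NN_map (fun x : Option J → Mk k =>
    Function.update (x ∘ some) j0 (x none * x (some j0))) (fun l h1 h2 => ?_) hg
  obtain ⟨l1, l2, rfl⟩ := List.append_of_mem (h2 j0)
  have h3 : j0 ∉ l1 ∧ j0 ∉ l2 ∧ (l1 ++ l2).Nodup := by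
    have h4 := List.nodup_middle.mp h1
    rw [List.nodup_cons, List.mem_append, not_or] at h4
    exact ⟨h4.1.1, h4.1.2, h4.2⟩
  have : (fun x : Option J → Mk k => mon (l1 ++ j0 :: l2)
      (Function.update (x ∘ some) j0 (x none * x (some j0)))) =
      mon (l1.map some ++ none :: some j0 :: l2.map some) := by
    funext x
    unfold mon
    rw [List.map_append, List.map_cons, map_update_of_notMem l1 j0 h3.1,
      map_update_of_notMem l2 j0 h3.2.1, Function.update_self]
    simp [List.map_append, mul_assoc]
  rw [this]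
  refine mon_mem _ ?_ ?_
  · have h5 : ((l1 ++ j0 :: l2).map some).Nodup := h1.map (Option.some_injective _)
    rw [List.map_append, List.map_cons] at h5
    rw [List.nodup_middle, List.nodup_cons]
    refine ⟨?_, h5⟩
    simp
  · intro j
    rcases j with _ | j
    · simp
    · have := h2 j
      simp at this ⊢
      exact this

lemma NN_substR (j0 : J) {g : (J → Mk k) → Mk k} (hg : g ∈ NN k J) :
    (fun x : Option J → Mk k =>
      g (Function.update (x ∘ some) j0 (x (some j0) * x none))) ∈ NN k (Option J) := by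
  refine NN_map (fun x : Option J → Mk k =>
    Function.update (x ∘ some) j0 (x (some j0) * x none)) (fun l h1 h2 => ?_) hg
  obtain ⟨l1, l2, rfl⟩ := List.append_of_mem (h2 j0)
  have h3 : j0 ∉ l1 ∧ j0 ∉ l2 ∧ (l1 ++ l2).Nodup := by
    have h4 := List.nodup_middle.mp h1
    rw [List.nodup_cons, List.mem_append, not_or] at h4
    exact ⟨h4.1.1, h4.1.2, h4.2⟩
  have : (fun x : Option J → Mk k => mon (l1 ++ j0 :: l2)
      (Function.update (x ∘ some) j0 (x (some j0) * x none))) =
      mon ((l1.map some ++ [some j0]) ++ none :: l2.map some) := by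
    funext x
    unfold mon
    rw [List.map_append, List.map_cons, map_update_of_notMem l1 j0 h3.1,
      map_update_of_notMem l2 j0 h3.2.1, Function.update_self]
    simp [List.map_append, mul_assoc]
  rw [this]
  refine mon_mem _ ?_ ?_
  · have h5 : ((l1 ++ j0 :: l2).map some).Nodup := h1.map (Option.some_injective _)
    rw [List.map_append, List.map_cons] at h5
    rw [List.nodup_middle, List.nodup_cons]
    refine ⟨?_, ?_⟩
    · simp
    · simpa using h5
  · intro j
    rcases j with _ | j
    · simp
    · have := h2 j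
      simp at this ⊢
      tauto

end Subst

end NNs

section Capelli

/-- the product `∏ (x_i u_i)` as a multilinear map of `x`. -/
noncomputable def capM {m : ℕ} (u : Fin m → Mk k) : MultilinearMap ℝ (fun _ : Fin m => Mk k) (Mk k) :=
  (MultilinearMap.mkPiAlgebraFin ℝ m (Mk k)).compLinearMap (fun i => LinearMap.mulRight ℝ (u i))

lemma capM_apply {m : ℕ} (u x : Fin m → Mk k) :
    capM u x = (List.ofFn fun i => x i * u i).prod := by
  unfold capM
  rw [MultilinearMap.compLinearMap_apply, MultilinearMap.mkPiAlgebraFin_apply]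
  rfl

/-- the Capelli map. -/
noncomputable def capA {m : ℕ} (u : Fin m → Mk k) : (Mk k) [⋀^Fin m]→ₗ[ℝ] (Mk k) :=
  MultilinearMap.alternatization (capM u)

lemma capA_apply {m : ℕ} (u x : Fin m → Mk k) :
    capA u x = ∑ σ : Equiv.Perm (Fin m), (Equiv.Perm.sign σ : ℤ) •
      (List.ofFn fun i => x (σ i) * u i).prod := by
  unfold capA
  rw [MultilinearMap.alternatization_apply]
  refine Finset.sum_congr rfl fun σ _ => ?_
  rw [MultilinearMap.domDomCongr_apply, capM_apply]
  rfl

/-- basis of matrices indexed by `Fin (k*k)` -/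
noncomputable def mb (k : ℕ) : Basis (Fin (k * k)) ℝ (Mk k) :=
  (Matrix.stdBasis ℝ (Fin k) (Fin k)).reindex finProdFinEquiv

lemma capA_trace (u x : Fin (k * k) → Mk k) (z : Mk k) :
    ∑ i, capA u (Function.update x i (z * x i)) = ((k : ℝ) * z.trace) • capA u x := by
  have h := alt_trace (mb k) (capA u) (LinearMap.mulLeft ℝ z) x
  simp only [LinearMap.mulLeft_apply] at h
  rw [h]
  congr 1
  rw [← finProdFinEquiv.sum_comp, Fintype.sum_prod_type]
  have : ∀ (p q : Fin k), (mb k).repr (z * (mb k) (finProdFinEquiv (p, q)))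
      (finProdFinEquiv (p, q)) = z p p := by
    intro p q
    unfold mb
    rw [Basis.repr_reindex_apply, Basis.reindex_apply]
    simp only [Equiv.symm_apply_apply]
    rw [Matrix.stdBasis_eq_single]
    have h2 : ∀ M : Mk k, (Matrix.stdBasis ℝ (Fin k) (Fin k)).repr M (p, q) = M p q := by
      intro M
      simp [Matrix.stdBasis]
    rw [h2]
    simp
  simp only [this]
  simp [Matrix.trace, Finset.mul_sum]

end Capelli

end Pool.Agent.L0h61.AED
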