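import Mathlib
import Pool.Agent.L0h61.AED.Mono

/-!
Trace absorption: products of trace functions with the Capelli element are multilinear
noncommutative polynomials.
-/

set_option autoImplicit false

namespace Pool.Agent.L0h61.AED

open Module Matrix

/-- variables of the Capelli element -/
abbrev AV (k : ℕ) := Fin (k * k) ⊕ Fin (k * k)

variable {k : ℕ}

/-- the Capelli element as a function of all its variables -/
noncomputable def cap (x : AV k → Mk k) : Mk k := capA (x ∘ Sum.inr) (x ∘ Sum.inl)

/-- list of a Capelli monomial -/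
def capList (σ : Equiv.Perm (Fin (k * k))) : List (AV k) :=
  (List.finRange (k * k)).flatMap fun i => [Sum.inl (σ i), Sum.inr i]

lemma capList_nodup (σ : Equiv.Perm (Fin (k * k))) : (capList σ).Nodup := by
  unfold capList
  rw [List.nodup_flatMap]
  refine ⟨fun i _ => by simp, ?_⟩
  have := List.nodup_finRange (k * k)
  refine List.Pairwise.imp ?_ this
  intro i j hij
  simp only [Function.onFun, List.disjoint_cons_left, List.mem_cons, Sum.inl.injEq,
    EmbeddingLike.apply_eq_iff_eq, reduceCtorEq, List.not_mem_nil, or_false, false_or]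
  refine ⟨hij, ?_⟩
  simp [hij]

lemma capList_mem (σ : Equiv.Perm (Fin (k * k))) (j : AV k) : j ∈ capList σ := by
  unfold capList
  rw [List.mem_flatMap]
  rcases j with j | j
  · exact ⟨σ.symm j, List.mem_finRange _, by simp⟩
  · exact ⟨j, List.mem_finRange _, by simp⟩

lemma mon_capList (σ : Equiv.Perm (Fin (k * k))) (x : AV k → Mk k) :
    mon (capList σ) x = (List.ofFn fun i => x (Sum.inl (σ i)) * x (Sum.inr i)).prod := by
  unfold mon capList
  rw [List.map_flatMap, List.ofFn_eq_map]
  generalize List.finRange (k * k) = l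
  induction l with
  | nil => simp
  | cons a l ih =>
    rw [List.flatMap_cons, List.prod_append, ih]
    simp

lemma cap_mem : (cap (k := k)) ∈ NN k (AV k) := by
  have : (cap (k := k)) = ∑ σ : Equiv.Perm (Fin (k * k)),
      ((Equiv.Perm.sign σ : ℤ) : ℝ) • mon (capList σ) := by
    funext x
    unfold cap
    rw [capA_apply, Finset.sum_apply]
    refine Finset.sum_congr rfl fun σ _ => ?_
    rw [Pi.smul_apply, mon_capList, Int.cast_smul_eq_zsmul]
    rfl
  rw [this]
  exact Submodule.sum_mem _ fun σ _ => Submodule.smul_mem _ _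
    (mon_mem _ (capList_nodup σ) (capList_mem σ))

/-- reindexing -/
def optE (A B : Type) : Option (A ⊕ B) ≃ A ⊕ Option B where
  toFun x := match x with
    | none => Sum.inr none
    | some (Sum.inl a) => Sum.inl a
    | some (Sum.inr b) => Sum.inr (some b)
  invFun x := match x with
    | Sum.inr none => none
    | Sum.inl a => some (Sum.inl a)
    | Sum.inr (some b) => some (Sum.inr b)
  left_inv := by rintro (_ | (x | x)) <;> rfl
  right_inv := by rintro (x | (_ | x)) <;> rfl

/-- the function `Tm σ ⊗ cap`. -/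
noncomputable def TC {B : Type} [Fintype B] [DecidableEq B] (σ : Equiv.Perm B)
    (x : AV k ⊕ B → Mk k) : Mk k := Tm σ (x ∘ Sum.inr) • cap (x ∘ Sum.inl)

lemma TC_none (hk : 1 ≤ k) {B : Type} [Fintype B] [DecidableEq B] (σ : Equiv.Perm B)
    (h : TC (k := k) σ ∈ NN k (AV k ⊕ B)) :
    TC (k := k) (Equiv.optionCongr σ : Equiv.Perm (Option B)) ∈ NN k (AV k ⊕ Option B) := by
  have hk0 : (k : ℝ) ≠ 0 := by
    have : 0 < k := hk
    positivity
  have h1 : ∀ i : Fin (k * k), (fun x : AV k ⊕ Option B → Mk k =>
      TC (k := k) σ (Function.update ((x ∘ optE _ _) ∘ some) (Sum.inl (Sum.inl i))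
        ((x ∘ optE _ _) none * (x ∘ optE _ _) (some (Sum.inl (Sum.inl i)))))) ∈
      NN k (AV k ⊕ Option B) := fun i =>
    NN_relabel (optE (AV k) B) (NN_substL (Sum.inl (Sum.inl i)) h)
  have h2 : TC (k := k) (Equiv.optionCongr σ : Equiv.Perm (Option B)) =
      (k : ℝ)⁻¹ • ∑ i : Fin (k * k), (fun x : AV k ⊕ Option B → Mk k =>
      TC (k := k) σ (Function.update ((x ∘ optE _ _) ∘ some) (Sum.inl (Sum.inl i))
        ((x ∘ optE _ _) none * (x ∘ optE _ _) (some (Sum.inl (Sum.inl i)))))) := by
    funext x
    rw [Pi.smul_apply, Finset.sum_apply]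
    have e1 : ∀ i : Fin (k * k), TC (k := k) σ (Function.update ((x ∘ optE _ _) ∘ some)
        (Sum.inl (Sum.inl i))
        ((x ∘ optE _ _) none * (x ∘ optE _ _) (some (Sum.inl (Sum.inl i))))) =
        Tm σ (x ∘ Sum.inr ∘ some) • capA (x ∘ Sum.inl ∘ Sum.inr)
          (Function.update (x ∘ Sum.inl ∘ Sum.inl) i
            (x (Sum.inr none) * (x ∘ Sum.inl ∘ Sum.inl) i)) := by
      intro i
      unfold TC cap
      have e2 : (Function.update ((x ∘ optE (AV k) B) ∘ some)
        (Sum.inl (Sum.inl i))
        ((x ∘ optE _ _) none * (x ∘ optE _ _) (some (Sum.inl (Sum.inl i))))) ∘ Sum.inr =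
          x ∘ Sum.inr ∘ some := by
        funext b
        simp only [Function.comp]
        rw [Function.update_of_ne (by simp)]
        rfl
      have e3 : ((Function.update ((x ∘ optE (AV k) B) ∘ some)
        (Sum.inl (Sum.inl i))
        ((x ∘ optE _ _) none * (x ∘ optE _ _) (some (Sum.inl (Sum.inl i))))) ∘ Sum.inl) ∘ Sum.inr =
          x ∘ Sum.inl ∘ Sum.inr := by
        funext b
        simp only [Function.comp]
        rw [Function.update_of_ne (by simp)]
        rfl
      have e4 : ((Function.update ((x ∘ optE (AV k) B) ∘ some)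
        (Sum.inl (Sum.inl i))
        ((x ∘ optE _ _) none * (x ∘ optE _ _) (some (Sum.inl (Sum.inl i))))) ∘ Sum.inl) ∘ Sum.inl =
          Function.update (x ∘ Sum.inl ∘ Sum.inl) i
            (x (Sum.inr none) * (x ∘ Sum.inl ∘ Sum.inl) i) := by
        funext b
        by_cases hb : b = i
        · subst hb
          simp only [Function.comp]
          rw [Function.update_self, Function.update_self]
          rfl
        · simp only [Function.comp]
          rw [Function.update_of_ne (by simpa using hb), Function.update_of_ne hb]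
          rfl
      rw [e2, e3, e4]
    simp_rw [e1]
    rw [← Finset.smul_sum, capA_trace, smul_smul, smul_smul]
    unfold TC cap
    rw [Tm_none]
    congr 1
    field_simp
    simp only [Function.comp_assoc]
    exact mul_comm _ _
  rw [h2]
  exact Submodule.smul_mem _ _ (Submodule.sum_mem _ fun i _ => h1 i)

lemma TC_some {B : Type} [Fintype B] [DecidableEq B] (σ : Equiv.Perm B) (b : B)
    (h : TC (k := k) σ ∈ NN k (AV k ⊕ B)) :
    TC (k := k) (Equiv.swap none (some b) * Equiv.optionCongr σ : Equiv.Perm (Option B)) ∈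
      NN k (AV k ⊕ Option B) := by
  have h1 := NN_relabel (optE (AV k) B) (NN_substR (Sum.inr (σ.symm b)) h)
  convert h1 using 1
  funext x
  unfold TC cap
  rw [Tm_some]
  have e1 : Function.update ((x ∘ Sum.inr) ∘ some) (σ.symm b)
      ((x ∘ Sum.inr) (some (σ.symm b)) * (x ∘ Sum.inr) none) =
      (Function.update ((x ∘ optE (AV k) B) ∘ some) (Sum.inr (σ.symm b))
        ((x ∘ optE (AV k) B) (some (Sum.inr (σ.symm b))) * (x ∘ optE (AV k) B) none)) ∘ Sum.inr := by
    funext c
    by_cases hc : c = σ.symm b
    · subst hc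
      simp only [Function.comp]
      rw [Function.update_self, Function.update_self]
      rfl
    · simp only [Function.comp]
      rw [Function.update_of_ne hc, Function.update_of_ne (by simpa using hc)]
      rfl
  have e2 : (Function.update ((x ∘ optE (AV k) B) ∘ some) (Sum.inr (σ.symm b))
        ((x ∘ optE (AV k) B) (some (Sum.inr (σ.symm b))) * (x ∘ optE (AV k) B) none)) ∘ Sum.inl
      = x ∘ Sum.inl := by
    funext c
    simp only [Function.comp]
    rw [Function.update_of_ne (by simp)]
    rfl
  rw [e1, e2]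

lemma TC_equiv {B B' : Type} [Fintype B] [DecidableEq B] [Fintype B'] [DecidableEq B']
    (e : B ≃ B') (σ : Equiv.Perm B')
    (h : TC (k := k) ((e.trans σ).trans e.symm) ∈ NN k (AV k ⊕ B)) :
    TC (k := k) σ ∈ NN k (AV k ⊕ B') := by
  have h1 := NN_relabel (Equiv.sumCongr (Equiv.refl (AV k)) e) h
  convert h1 using 1
  funext x
  unfold TC
  rw [Tm_relabel e σ]
  rfl

theorem absorb (hk : 1 ≤ k) (n : ℕ) : ∀ σ : Equiv.Perm (Fin n),
    TC (k := k) σ ∈ NN k (AV k ⊕ Fin n) := by
  induction n with
  | zero =>
    intro σ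
    have h1 := NN_relabel (Equiv.sumEmpty (AV k) (Fin 0)).symm (cap_mem (k := k))
    convert h1 using 1
    funext x
    unfold TC
    have : Tm σ (x ∘ Sum.inr) = 1 := by
      unfold Tm
      simp
    rw [this, one_smul]
    rfl
  | succ n ih =>
    intro σ
    let e : Option (Fin n) ≃ Fin (n + 1) := (finSuccEquiv n).symm
    apply TC_equiv e
    set τ : Equiv.Perm (Option (Fin n)) := (e.trans σ).trans e.symm with hτ
    have hd := (Equiv.Perm.decomposeOption.symm_apply_apply τ)
    rw [← hd, Equiv.Perm.decomposeOption_symm_apply]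
    rcases (Equiv.Perm.decomposeOption τ).1 with _ | b
    · rw [Equiv.swap_self]
      exact TC_none hk _ (ih _)
    · exact TC_some _ _ (ih _)

end Pool.Agent.L0h61.AED
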