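import Mathlib

/-!
Elementary analysis: ratio limits of log-convex sequences, and the final squeeze.
-/

set_option autoImplicit false

namespace Pool.Agent.L0h61.AED

open Filter Topology

theorem ratio_limit (t : ℕ → ℝ) (m : ℝ) (hm : 0 < m) (hpos : ∀ n, 0 < t n)
    (hlc : ∀ n, t (n + 1) ^ 2 ≤ t (n + 2) * t n) (hup : ∀ n, t n ≤ m ^ n) (d : ℕ)
    (hlow : ∀ n : ℕ, m ^ n ≤ t n * ((n : ℝ) + 1) ^ d) :
    Tendsto (fun n => t (n + 1) / t n) atTop (𝓝 m) := by
  set r : ℕ → ℝ := fun n => t (n + 1) / t n with hr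
  have hmono : Monotone r := by
    refine monotone_nat_of_le_succ fun n => ?_
    simp only [hr]
    rw [div_le_div_iff₀ (hpos n) (hpos (n + 1))]
    nlinarith [hlc n]
  have hrpos : ∀ n, 0 < r n := fun n => div_pos (hpos _) (hpos _)
  have hstep : ∀ n, t (n + 1) = t n * r n := by
    intro n
    simp only [hr]
    field_simp [(hpos n).ne']
  have geo : ∀ N j, t N * (r N) ^ j ≤ t (N + j) := by
    intro N j
    induction j with
    | zero => simp
    | succ j ih =>
      have h1 : t (N + (j + 1)) = t (N + j) * r (N + j) := hstep (N + j)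
      rw [h1, pow_succ, ← mul_assoc]
      exact mul_le_mul ih (hmono (Nat.le_add_right _ _)) (hrpos _).le (hpos _).le
  have hub : ∀ N, r N ≤ m := by
    intro N
    by_contra h
    push Not at h
    have hq : 1 < r N / m := by rw [lt_div_iff₀ hm]; linarith
    obtain ⟨j, hj⟩ := pow_unbounded_of_one_lt (m ^ N / t N) hq
    have h1 := (geo N j).trans (hup (N + j))
    rw [div_pow, div_lt_div_iff₀ (hpos N) (pow_pos hm j)] at hj
    rw [pow_add] at h1
    linarith
  have hbdd : BddAbove (Set.range r) := ⟨m, by rintro _ ⟨n, rfl⟩; exact hub n⟩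
  have hlim := tendsto_atTop_ciSup hmono hbdd
  set L := ⨆ n, r n with hL
  have hLm : L ≤ m := ciSup_le hub
  have hrL : ∀ n, r n ≤ L := fun n => le_ciSup hbdd n
  have hL0 : 0 < L := lt_of_lt_of_le (hrpos 0) (hrL 0)
  have hgrow : ∀ n, t n ≤ t 0 * L ^ n := by
    intro n
    induction n with
    | zero => simp
    | succ n ih =>
      rw [hstep n, pow_succ, ← mul_assoc]
      exact mul_le_mul ih (hrL n) (hrpos n).le (mul_pos (hpos 0) (pow_pos hL0 n)).le
  rcases hLm.lt_or_eq with hlt | heq
  · exfalso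
    have hq0 : 0 ≤ L / m := (div_pos hL0 hm).le
    have hq1 : L / m < 1 := by rw [div_lt_one hm]; exact hlt
    have hz := tendsto_pow_const_mul_const_pow_of_abs_lt_one d (r := L / m)
      (by rw [abs_of_nonneg hq0]; exact hq1)
    have hz2 := hz.comp (tendsto_add_atTop_nat 1)
    have hz3 := (hz2.const_mul (t 0 * (m / L)))
    simp only [mul_zero] at hz3
    have hev := hz3.eventually (gt_mem_nhds (show (0:ℝ) < 1 by norm_num))
    obtain ⟨n, hn⟩ := hev.exists
    have h1 := hlow n
    have h2 := hgrow n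
    have h3 : m ^ n ≤ t 0 * L ^ n * ((n : ℝ) + 1) ^ d :=
      h1.trans (mul_le_mul_of_nonneg_right h2 (by positivity))
    have h4 : t 0 * (m / L) * (((n + 1 : ℕ) : ℝ) ^ d * (L / m) ^ (n + 1)) =
        t 0 * L ^ n * ((n : ℝ) + 1) ^ d / m ^ n := by
      push_cast
      rw [pow_succ, div_pow]
      field_simp
    simp only [Function.comp] at hn
    rw [h4, div_lt_one (pow_pos hm n)] at hn
    linarith
  · rw [heq] at hlim
    exact hlim

/-- Final squeeze: `c_n ≤ t_{n+1}`, `t_{n+1} ≤ c_n + a_n`, `δ_n ≤ t_n`, `t_n + c_n ≤ t_{n+1} + δ_n`. -/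
theorem final_squeeze (t c δ a : ℕ → ℝ) (m : ℝ) (hm : 0 < m) (hpos : ∀ n, 0 < t n)
    (hrat : Tendsto (fun n => t (n + 1) / t n) atTop (𝓝 m))
    (ha : Tendsto (fun n => a n / t (n + 1)) atTop (𝓝 0))
    (h1 : ∀ n, c n ≤ t (n + 1)) (h2 : ∀ n, t (n + 1) ≤ c n + a n)
    (h3 : ∀ n, δ n ≤ t n) (h4 : ∀ n, t n + c n ≤ t (n + 1) + δ n) :
    Tendsto (fun n => (c n - δ n) / c n) atTop (𝓝 (1 - 1 / m)) := by
  have hc : Tendsto (fun n => c n / t (n + 1)) atTop (𝓝 1) := by
    have hl : Tendsto (fun n => 1 - a n / t (n + 1)) atTop (𝓝 1) := by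
      simpa using ha.const_sub 1
    refine tendsto_of_tendsto_of_tendsto_of_le_of_le hl tendsto_const_nhds ?_ ?_
    · intro n
      have := hpos (n + 1)
      show 1 - a n / t (n + 1) ≤ c n / t (n + 1)
      rw [sub_le_iff_le_add, ← add_div, le_div_iff₀ this]
      linarith [h2 n]
    · intro n
      have := hpos (n + 1)
      show c n / t (n + 1) ≤ 1
      rw [div_le_one this]
      exact h1 n
  have hrat' : Tendsto (fun n => t n / t (n + 1)) atTop (𝓝 (1 / m)) := by
    have := hrat.inv₀ hm.ne'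
    refine (this.congr ?_).trans (by rw [one_div])
    intro n
    rw [inv_div]
  have hδ : Tendsto (fun n => δ n / t (n + 1)) atTop (𝓝 (1 / m)) := by
    have hl : Tendsto (fun n => t n / t (n + 1) - (1 - c n / t (n + 1))) atTop (𝓝 (1 / m)) := by
      simpa using hrat'.sub (hc.const_sub 1)
    refine tendsto_of_tendsto_of_tendsto_of_le_of_le hl hrat' ?_ ?_
    · intro n
      have := hpos (n + 1)
      show t n / t (n + 1) - (1 - c n / t (n + 1)) ≤ δ n / t (n + 1)
      have e : t n / t (n + 1) - (1 - c n / t (n + 1)) = (t n + c n - t (n + 1)) / t (n + 1) := by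
        field_simp
        ring
      rw [e, div_le_div_iff_of_pos_right this]
      linarith [h4 n]
    · intro n
      have := hpos (n + 1)
      show δ n / t (n + 1) ≤ t n / t (n + 1)
      rw [div_le_div_iff_of_pos_right this]
      exact h3 n
  have hq := hδ.div hc one_ne_zero
  have hfin := hq.const_sub 1
  rw [div_one] at hfin
  refine hfin.congr' ?_
  have hev := hc.eventually (lt_mem_nhds (show (0:ℝ) < 1 by norm_num))
  filter_upwards [hev] with n hn
  have hp := hpos (n + 1)
  have hcn : 0 < c n := by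
    rcases div_pos_iff.mp hn with h | h
    · exact h.1
    · exact absurd h.2 (not_lt.mpr hp.le)
  simp only [Pi.div_apply]
  rw [div_div_div_cancel_right₀ hp.ne']
  field_simp

end Pool.Agent.L0h61.AED
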