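import Mathlib

/-!
Lexicographic avoidance bound: functions on words killed by all partial contractions with a
fixed nonzero function.
-/

set_option autoImplicit false

namespace Pool.Agent.L0h61.AED

open Module

/-- number of words avoiding a subsequence -/
def av {κ : Type} [Fintype κ] [DecidableEq κ] (l : List κ) (N : ℕ) : ℕ :=
  ∑ w : Fin N → κ, if List.Sublist l (List.ofFn w) then 0 else 1

lemma av_bound {κ : Type} [Fintype κ] [DecidableEq κ] (hκ : 2 ≤ Fintype.card κ) (N : ℕ) :
    ∀ l : List κ, av l N ≤ (N + 1) ^ l.length * (Fintype.card κ - 1) ^ N := by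
  induction N with
  | zero =>
    intro l
    unfold av
    simp only [Finset.univ_unique, Finset.sum_singleton]
    split_ifs <;> simp
  | succ N ih =>
    intro l
    rcases l with _ | ⟨a, l⟩
    · unfold av
      simp
    · have h1 : av (a :: l) (N + 1) = av l N + (Fintype.card κ - 1) * av (a :: l) N := by
        unfold av
        rw [← (Fin.consEquiv (fun _ : Fin (N+1) => κ)).sum_comp, Fintype.sum_prod_type,
          ← Finset.add_sum_erase _ _ (Finset.mem_univ a)]
        congr 1
        · refine Finset.sum_congr rfl fun w _ => ?_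
          congr 1
          apply propext
          show List.Sublist (a :: l) (List.ofFn (Fin.cons a w : Fin (N + 1) → κ)) ↔ _
          rw [List.ofFn_cons, List.cons_sublist_cons]
        · rw [Finset.sum_congr rfl (g := fun _ => ∑ w : Fin N → κ,
            if List.Sublist (a :: l) (List.ofFn w) then 0 else 1)]
          · rw [Finset.sum_const, Finset.card_erase_of_mem (Finset.mem_univ a),
              Finset.card_univ, smul_eq_mul]
          · intro b hb
            rw [Finset.mem_erase] at hb
            refine Finset.sum_congr rfl fun w _ => ?_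
            congr 1
            apply propext
            show List.Sublist (a :: l) (List.ofFn (Fin.cons b w : Fin (N + 1) → κ)) ↔ _
            rw [List.ofFn_cons]
            constructor
            · intro h
              cases h with
              | cons _ h => exact h
              | cons_cons _ h => exact absurd rfl hb.1
            · intro h
              exact h.cons b
      rw [h1]
      have i1 := ih l
      have i2 := ih (a :: l)
      rw [List.length_cons] at *
      set c := Fintype.card κ - 1 with hc
      have hc1 : 1 ≤ c := by omega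
      calc av l N + c * av (a :: l) N
          ≤ (N + 1) ^ l.length * c ^ N + c * ((N + 1) ^ (l.length + 1) * c ^ N) := by
            gcongr
        _ ≤ (N + 1) ^ l.length * c ^ (N + 1) + c * ((N + 1) ^ (l.length + 1) * c ^ N) := by
            have : c ^ N ≤ c ^ (N + 1) := Nat.pow_le_pow_right hc1 (by omega)
            gcongr
        _ = (N + 1) ^ l.length * (N + 2) * c ^ (N + 1) := by ring
        _ ≤ (N + 2) ^ l.length * (N + 2) * c ^ (N + 1) := by
            gcongr
            omega
        _ = (N + 1 + 1) ^ (l.length + 1) * c ^ (N + 1) := by ring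

/-- equal word on the left of a split -/
theorem avoid_bound {κ : Type} [Fintype κ] [LinearOrder κ] (d N : ℕ) (H : (Fin d → κ) → ℝ)
    (hH : ∃ z, H z ≠ 0) (hκ : 2 ≤ Fintype.card κ) (K : Submodule ℝ ((Fin N → κ) → ℝ))
    (hK : ∀ p ∈ K, ∀ (φ : Fin d ⊕ Fin (N - d) ≃ Fin N) (y : Fin (N - d) → κ),
      ∑ z : Fin d → κ, p (Sum.elim z y ∘ φ.symm) * H z = 0) :
    finrank ℝ K ≤ (N + 1) ^ d * (Fintype.card κ - 1) ^ N := by
  classical
  obtain ⟨w0, hw0, hmax⟩ := Finset.exists_max_image
    (Finset.univ.filter (fun z : Fin d → κ => H z ≠ 0)) (fun z => toLex z)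
    (by obtain ⟨z, hz⟩ := hH; exact ⟨z, by simpa using hz⟩)
  have hw0' : H w0 ≠ 0 := by simpa using hw0
  have hmax' : ∀ z, H z ≠ 0 → toLex z ≤ toLex w0 := fun z hz => hmax z (by simpa using hz)
  have hav := av_bound hκ N (List.ofFn w0)
  rw [List.length_ofFn] at hav
  refine le_trans ?_ hav
  have hcard : av (List.ofFn w0) N = Fintype.card
      {w : Fin N → κ // ¬ List.Sublist (List.ofFn w0) (List.ofFn w)} := by
    unfold av
    rw [Fintype.card_subtype, Finset.card_filter]
    refine Finset.sum_congr rfl fun w _ => ?_
    by_cases h : List.Sublist (List.ofFn w0) (List.ofFn w) <;> simp [h]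
  rw [hcard, ← Module.finrank_fintype_fun_eq_card (R := ℝ)]
  let Res : K →ₗ[ℝ] ({w : Fin N → κ // ¬ List.Sublist (List.ofFn w0) (List.ofFn w)} → ℝ) :=
    { toFun := fun p w => p.1 w.1
      map_add' := fun _ _ => rfl
      map_smul' := fun _ _ => rfl }
  refine LinearMap.finrank_le_finrank_of_injective (f := Res) ?_
  rw [← LinearMap.ker_eq_bot, LinearMap.ker_eq_bot']
  rintro ⟨p, hp⟩ hres
  apply Subtype.ext
  show p = 0
  by_contra hne
  obtain ⟨w, hw, hmin⟩ := Finset.exists_min_image
    (Finset.univ.filter (fun z : Fin N → κ => p z ≠ 0)) (fun z => toLex z)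
    (by obtain ⟨z, hz⟩ := Function.ne_iff.mp hne; exact ⟨z, by simpa using hz⟩)
  have hw' : p w ≠ 0 := by simpa using hw
  have hmin' : ∀ z, p z ≠ 0 → toLex w ≤ toLex z := fun z hz => hmin z (by simpa using hz)
  have hsub : List.Sublist (List.ofFn w0) (List.ofFn w) := by
    by_contra hns
    exact hw' (congrFun hres ⟨w, hns⟩)
  rw [List.sublist_iff_exists_fin_orderEmbedding_get_eq] at hsub
  obtain ⟨f, hf⟩ := hsub
  -- the strictly monotone embedding
  let ι : Fin d → Fin N := fun i => Fin.cast (by simp) (f (Fin.cast (by simp) i))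
  have hι : StrictMono ι := by
    intro i j hij
    have : f (Fin.cast (by simp) i) < f (Fin.cast (by simp) j) := f.strictMono hij
    exact this
  have hιw : ∀ i, w (ι i) = w0 i := by
    intro i
    have := hf (Fin.cast (by simp) i)
    simp only [List.get_ofFn] at this
    exact this.symm
  -- extend to an equivalence
  have hcomp : Fintype.card {i : Fin N // i ∉ Set.range ι} = N - d := by
    rw [Fintype.card_subtype_compl, Fintype.card_fin]
    congr 1
    have := Fintype.card_congr (Equiv.ofInjective ι hι.injective)
    rw [Fintype.card_fin] at this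
    refine Eq.trans ?_ this.symm
    exact Fintype.card_congr (Equiv.refl _)
  let φ : Fin d ⊕ Fin (N - d) ≃ Fin N :=
    (Equiv.sumCongr (Equiv.ofInjective ι hι.injective)
      (Fintype.equivFinOfCardEq hcomp).symm).trans (Equiv.Set.sumCompl (Set.range ι))
  have hφl : ∀ i, φ (Sum.inl i) = ι i := by
    intro i
    show (Equiv.Set.sumCompl (Set.range ι)) (Sum.inl ⟨ι i, ⟨i, rfl⟩⟩) = ι i
    exact Equiv.Set.sumCompl_apply_inl _ _
  let y : Fin (N - d) → κ := fun b => w (φ (Sum.inr b))
  have heq := hK p hp φ y
  have hself : Sum.elim w0 y ∘ φ.symm = w := by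
    funext i
    obtain ⟨x, rfl⟩ := φ.surjective i
    rcases x with x | x
    · simp only [Function.comp, Equiv.symm_apply_apply, Sum.elim_inl]
      rw [hφl, hιw]
    · simp only [Function.comp, Equiv.symm_apply_apply, Sum.elim_inr]
      rfl
  rw [Finset.sum_eq_single w0] at heq
  · rw [hself] at heq
    exact (mul_ne_zero hw' hw0') heq
  · intro z _ hz
    by_cases hHz : H z = 0
    · rw [hHz, mul_zero]
    · have hlt : toLex z < toLex w0 := lt_of_le_of_ne (hmax' z hHz) (fun h => hz (toLex_inj.mp h))
      obtain ⟨i0, hi1, hi2⟩ := (hlt : Pi.Lex (· < ·) (· < ·) z w0)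
      have hlt2 : toLex (Sum.elim z y ∘ φ.symm) < toLex w := by
        refine (⟨ι i0, ?_, ?_⟩ : Pi.Lex (· < ·) (· < ·) (Sum.elim z y ∘ φ.symm) w)
        · intro j hj
          obtain ⟨x, rfl⟩ := φ.surjective j
          rcases x with x | x
          · simp only [Function.comp, Equiv.symm_apply_apply, Sum.elim_inl]
            rw [hφl] at hj
            have hx : x < i0 := hι.lt_iff_lt.mp hj
            rw [hφl, hιw]
            exact hi1 x hx
          · simp only [Function.comp, Equiv.symm_apply_apply, Sum.elim_inr]
            rfl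
        · have e1 : (Sum.elim z y ∘ φ.symm) (ι i0) = z i0 := by
            rw [← hφl]
            simp
          rw [e1, hιw]
          exact hi2
      have : p (Sum.elim z y ∘ φ.symm) = 0 := by
        by_contra hne2
        exact absurd (hmin' _ hne2) (not_le.mpr hlt2)
      rw [this, zero_mul]
  · intro h
    exact absurd (Finset.mem_univ _) h

end Pool.Agent.L0h61.AED
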