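import Mathlib
import Pool.Agent.L0h61.AED.Diag

/-!
Composition of mixed diagram spaces; the matrix category `Hm`.
-/

set_option autoImplicit false

namespace Pool.Agent.L0h61.AED

variable {k : ℕ}

/-- shuffle `(e ⊕ d) ⊕ (c ⊕ b) ≃ (e ⊕ b) ⊕ (c ⊕ d)`. -/
def shufO (e d c b : Type) : (e ⊕ d) ⊕ (c ⊕ b) ≃ (e ⊕ b) ⊕ (c ⊕ d) where
  toFun x := match x with
    | Sum.inl (Sum.inl x) => Sum.inl (Sum.inl x)
    | Sum.inl (Sum.inr x) => Sum.inr (Sum.inr x)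
    | Sum.inr (Sum.inl x) => Sum.inr (Sum.inl x)
    | Sum.inr (Sum.inr x) => Sum.inl (Sum.inr x)
  invFun x := match x with
    | Sum.inl (Sum.inl x) => Sum.inl (Sum.inl x)
    | Sum.inr (Sum.inr x) => Sum.inl (Sum.inr x)
    | Sum.inr (Sum.inl x) => Sum.inr (Sum.inl x)
    | Sum.inl (Sum.inr x) => Sum.inr (Sum.inr x)
  left_inv := by rintro ((x | x) | (x | x)) <;> rfl
  right_inv := by rintro ((x | x) | (x | x)) <;> rfl

/-- shuffle `(f ⊕ c) ⊕ (d ⊕ a) ≃ (f ⊕ a) ⊕ (c ⊕ d)`. -/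
def shufI (f c d a : Type) : (f ⊕ c) ⊕ (d ⊕ a) ≃ (f ⊕ a) ⊕ (c ⊕ d) where
  toFun x := match x with
    | Sum.inl (Sum.inl x) => Sum.inl (Sum.inl x)
    | Sum.inl (Sum.inr x) => Sum.inr (Sum.inl x)
    | Sum.inr (Sum.inl x) => Sum.inr (Sum.inr x)
    | Sum.inr (Sum.inr x) => Sum.inl (Sum.inr x)
  invFun x := match x with
    | Sum.inl (Sum.inl x) => Sum.inl (Sum.inl x)
    | Sum.inr (Sum.inl x) => Sum.inl (Sum.inr x)
    | Sum.inr (Sum.inr x) => Sum.inr (Sum.inl x)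
    | Sum.inl (Sum.inr x) => Sum.inr (Sum.inr x)
  left_inv := by rintro ((x | x) | (x | x)) <;> rfl
  right_inv := by rintro ((x | x) | (x | x)) <;> rfl

lemma TS_comp {a b c d e f : Type} [Fintype c] [DecidableEq c] [Fintype d] [DecidableEq d]
    {N : (e ⊕ d → Fin k) → (f ⊕ c → Fin k) → ℝ} (hN : N ∈ TS k (e ⊕ d) (f ⊕ c))
    {M : (c ⊕ b → Fin k) → (d ⊕ a → Fin k) → ℝ} (hM : M ∈ TS k (c ⊕ b) (d ⊕ a)) :
    (fun (u : e ⊕ b → Fin k) (v : f ⊕ a → Fin k) =>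
      ∑ z : (c → Fin k) × (d → Fin k),
        N (Sum.elim (u ∘ Sum.inl) z.2) (Sum.elim (v ∘ Sum.inl) z.1) *
        M (Sum.elim z.1 (u ∘ Sum.inr)) (Sum.elim z.2 (v ∘ Sum.inr))) ∈
      TS k (e ⊕ b) (f ⊕ a) := by
  have h1 := TS_tensor hN hM
  have h2 := TS_relabel (shufO e d c b) (shufI f c d a) h1
  have h3 := TS_contractAll h2
  convert h3 using 1
  funext u v
  rw [← (Equiv.sumArrowEquivProdArrow c d (Fin k)).sum_comp]
  refine Finset.sum_congr rfl fun z _ => ?_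
  congr 2 <;> funext x <;> rcases x with x | x <;> rfl

/-- The space of mixed diagram matrices `(a,b) → (c,d)`. -/
def Hm (k : ℕ) (a b c d : Type) :
    Submodule ℝ (Matrix ((c → Fin k) × (d → Fin k)) ((a → Fin k) × (b → Fin k)) ℝ) where
  carrier := {M | (fun (u : c ⊕ b → Fin k) (v : d ⊕ a → Fin k) =>
    M (u ∘ Sum.inl, v ∘ Sum.inl) (v ∘ Sum.inr, u ∘ Sum.inr)) ∈ TS k (c ⊕ b) (d ⊕ a)}
  add_mem' h1 h2 := Submodule.add_mem (TS k (c ⊕ b) (d ⊕ a)) h1 h2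
  zero_mem' := Submodule.zero_mem (TS k (c ⊕ b) (d ⊕ a))
  smul_mem' r _ h := Submodule.smul_mem (TS k (c ⊕ b) (d ⊕ a)) r h

lemma mem_Hm {a b c d : Type}
    {M : Matrix ((c → Fin k) × (d → Fin k)) ((a → Fin k) × (b → Fin k)) ℝ} :
    M ∈ Hm k a b c d ↔ (fun (u : c ⊕ b → Fin k) (v : d ⊕ a → Fin k) =>
    M (u ∘ Sum.inl, v ∘ Sum.inl) (v ∘ Sum.inr, u ∘ Sum.inr)) ∈ TS k (c ⊕ b) (d ⊕ a) := Iff.rfl

lemma Hm_mul {a b c d e f : Type} [Fintype c] [DecidableEq c] [Fintype d] [DecidableEq d]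
    {N : Matrix ((e → Fin k) × (f → Fin k)) ((c → Fin k) × (d → Fin k)) ℝ}
    (hN : N ∈ Hm k c d e f)
    {M : Matrix ((c → Fin k) × (d → Fin k)) ((a → Fin k) × (b → Fin k)) ℝ}
    (hM : M ∈ Hm k a b c d) : N * M ∈ Hm k a b e f := by
  rw [mem_Hm] at *
  exact TS_comp hN hM

lemma Hm_transpose {a b c d : Type}
    {M : Matrix ((c → Fin k) × (d → Fin k)) ((a → Fin k) × (b → Fin k)) ℝ}
    (hM : M ∈ Hm k a b c d) : M.transpose ∈ Hm k c d a b := by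
  rw [mem_Hm] at *
  have h := TS_relabel (Equiv.sumComm d a) (Equiv.sumComm c b) (TS_trans hM)
  exact h

open scoped Classical in
lemma Hm_one {a b : Type} [Fintype a] [DecidableEq a] [Fintype b] [DecidableEq b] :
    (1 : Matrix ((a → Fin k) × (b → Fin k)) ((a → Fin k) × (b → Fin k)) ℝ) ∈ Hm k a b a b := by
  rw [mem_Hm]
  convert T_mem (k := k) (Equiv.sumComm a b) using 1
  funext u v
  rw [T_apply, Matrix.one_apply]
  congr 1
  apply propext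
  rw [Prod.mk.injEq]
  constructor
  · rintro ⟨h1, h2⟩
    funext x
    rcases x with x | x
    · exact congrFun h1 x
    · exact (congrFun h2 x).symm
  · intro h
    exact ⟨funext fun x => congrFun h (Sum.inl x), funext fun x => (congrFun h (Sum.inr x)).symm⟩

/-- `Hm` is linearly equivalent to the corresponding diagram span. -/
def hmEquiv (k : ℕ) (a b c d : Type) : Hm k a b c d ≃ₗ[ℝ] TS k (c ⊕ b) (d ⊕ a) where
  toFun M := ⟨_, M.2⟩
  map_add' _ _ := rfl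
  map_smul' _ _ := rfl
  invFun f := ⟨Matrix.of fun x y => f.1 (Sum.elim x.1 y.2) (Sum.elim x.2 y.1), by
    rw [mem_Hm]
    convert f.2 using 1
    funext u v
    show f.1 (Sum.elim (u ∘ Sum.inl) (u ∘ Sum.inr)) (Sum.elim (v ∘ Sum.inl) (v ∘ Sum.inr)) = f.1 u v
    rw [Sum.elim_comp_inl_inr, Sum.elim_comp_inl_inr]⟩
  left_inv M := by
    apply Subtype.ext
    rfl
  right_inv f := by
    apply Subtype.ext
    funext u v
    show f.1 (Sum.elim (u ∘ Sum.inl) (u ∘ Sum.inr)) (Sum.elim (v ∘ Sum.inl) (v ∘ Sum.inr)) = f.1 u v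
    rw [Sum.elim_comp_inl_inr, Sum.elim_comp_inl_inr]

end Pool.Agent.L0h61.AED
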