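import Mathlib

/-!
A Cauchy-Schwarz inequality for modules over semisimple algebras:
`(dim M)^2 ≤ dim E * dim End_E(M)`; and semisimplicity of transposition-closed matrix algebras.
-/

set_option autoImplicit false

namespace Pool.Agent.L0h61.AED

open Module

section Comb

/-- Combinatorial Cauchy–Schwarz for class-counting. -/
lemma comb_cs {ι ι' Q : Type} [Fintype ι] [Fintype ι'] [DecidableEq Q] (c : ι → Q) (c' : ι' → Q)
    (d : Q → ℕ) :
    (∑ i, ∑ j, if c i = c' j then d (c i) else 0) ^ 2 ≤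
      (∑ i, ∑ i', if c i = c i' then d (c i) else 0) *
      (∑ j, ∑ j', if c' j = c' j' then d (c' j) else 0) := by
  classical
  let s : Finset Q := Finset.univ.image c ∪ Finset.univ.image c'
  have gen : ∀ {α β : Type} [Fintype α] [Fintype β] (f : α → Q) (g : β → Q)
      (_ : ∀ a, f a ∈ s), (∑ i, ∑ j, if f i = g j then d (f i) else 0) =
      ∑ q ∈ s, d q * ((Finset.univ.filter (fun i => f i = q)).card *
        (Finset.univ.filter (fun j => g j = q)).card) := by
    intro α β _ _ f g hf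
    have h1 : ∀ i j, (if f i = g j then d (f i) else 0) =
        ∑ q ∈ s, d q * ((if f i = q then 1 else 0) * (if g j = q then 1 else 0)) := by
      intro i j
      rw [Finset.sum_eq_single (f i)]
      · by_cases h : f i = g j
        · simp [h]
        · simp [h, Ne.symm h]
      · intro q _ hq
        simp [Ne.symm hq]
      · intro h
        exact absurd (hf i) h
    simp_rw [h1]
    rw [Finset.sum_congr rfl (fun i _ => Finset.sum_comm), Finset.sum_comm]
    refine Finset.sum_congr rfl fun q _ => ?_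
    simp_rw [← Finset.mul_sum, ← Finset.sum_mul, Finset.card_filter]
  have hc : ∀ a, c a ∈ s := fun a => by simp [s]
  have hc' : ∀ a, c' a ∈ s := fun a => by simp [s]
  rw [gen c c' hc, gen c c hc, gen c' c' hc']
  have key := Finset.sum_mul_sq_le_sq_mul_sq s
    (fun q => Real.sqrt (d q) * ((Finset.univ.filter (fun i => c i = q)).card : ℝ))
    (fun q => Real.sqrt (d q) * ((Finset.univ.filter (fun i => c' i = q)).card : ℝ))
  have e : ∀ q (x y : ℝ), Real.sqrt (d q) * x * (Real.sqrt (d q) * y) = d q * (x * y) := by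
    intro q x y
    have := Real.mul_self_sqrt (Nat.cast_nonneg (α := ℝ) (d q))
    calc Real.sqrt (d q) * x * (Real.sqrt (d q) * y)
        = (Real.sqrt (d q) * Real.sqrt (d q)) * (x * y) := by ring
      _ = _ := by rw [this]
  simp_rw [pow_two, e] at key
  have key2 : ((∑ q ∈ s, d q * ((Finset.univ.filter (fun i => c i = q)).card *
        (Finset.univ.filter (fun j => c' j = q)).card) : ℕ) : ℝ) ^ 2 ≤
        ((∑ q ∈ s, d q * ((Finset.univ.filter (fun i => c i = q)).card *
        (Finset.univ.filter (fun j => c j = q)).card) : ℕ) : ℝ) *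
        ((∑ q ∈ s, d q * ((Finset.univ.filter (fun i => c' i = q)).card *
        (Finset.univ.filter (fun j => c' j = q)).card) : ℕ) : ℝ) := by
    push_cast
    rw [pow_two]
    exact key
  exact_mod_cast key2

end Comb

section Hom

variable {E : Type*} [Ring E] [Algebra ℝ E]

instance tower_comm {Y : Type*} [AddCommGroup Y] [Module ℝ Y] [Module E Y] [IsScalarTower ℝ E Y] :
    SMulCommClass E ℝ Y := IsScalarTower.to_smulCommClass'

lemma hom_finite (X Y : Type*) [AddCommGroup X] [Module ℝ X] [Module E X] [IsScalarTower ℝ E X]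
    [AddCommGroup Y] [Module ℝ Y] [Module E Y] [IsScalarTower ℝ E Y]
    [Module.Finite ℝ X] [Module.Finite ℝ Y] : Module.Finite ℝ (X →ₗ[E] Y) := by
  refine Module.Finite.of_injective (LinearMap.restrictScalarsₗ ℝ E X Y ℝ) ?_
  exact LinearMap.restrictScalars_injective _

/-- The dimension of the Hom space. -/
noncomputable def hd (E : Type*) [Ring E] [Algebra ℝ E] (X Y : Type*) [AddCommGroup X]
    [Module E X] [AddCommGroup Y] [Module ℝ Y] [Module E Y]
    [IsScalarTower ℝ E Y] : ℕ := finrank ℝ (X →ₗ[E] Y)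

lemma hd_pi {ι ι' : Type} [Fintype ι] [Fintype ι'] (A : ι → Type*) (B : ι' → Type*)
    [∀ i, AddCommGroup (A i)] [∀ i, Module ℝ (A i)] [∀ i, Module E (A i)]
    [∀ i, IsScalarTower ℝ E (A i)] [∀ i, Module.Finite ℝ (A i)]
    [∀ i, AddCommGroup (B i)] [∀ i, Module ℝ (B i)] [∀ i, Module E (B i)]
    [∀ i, IsScalarTower ℝ E (B i)] [∀ i, Module.Finite ℝ (B i)] :
    hd E (∀ i, A i) (∀ j, B j) = ∑ i, ∑ j, hd E (A i) (B j) := by
  classical
  unfold hd
  have e1 : ((∀ i, A i) →ₗ[E] (∀ j, B j)) ≃ₗ[ℝ] (∀ i, A i →ₗ[E] (∀ j, B j)) :=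
    (LinearMap.lsum E A ℝ).symm
  have e2 : ∀ i, (A i →ₗ[E] (∀ j, B j)) ≃ₗ[ℝ] (∀ j, A i →ₗ[E] B j) := fun i =>
    { toFun := fun f j => (LinearMap.proj j).comp f
      map_add' := fun _ _ => rfl
      map_smul' := fun _ _ => rfl
      invFun := fun g => LinearMap.pi g
      left_inv := fun _ => rfl
      right_inv := fun _ => rfl }
  have e3 := e1.trans (LinearEquiv.piCongrRight e2)
  rw [e3.finrank_eq]
  haveI : ∀ i j, Module.Finite ℝ (A i →ₗ[E] B j) := fun i j => hom_finite _ _
  rw [Module.finrank_pi_fintype]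
  refine Finset.sum_congr rfl fun i _ => ?_
  rw [Module.finrank_pi_fintype]

lemma hd_congr {X X' Y Y' : Type*} [AddCommGroup X] [Module E X]
    [AddCommGroup X'] [Module E X']
    [AddCommGroup Y] [Module ℝ Y] [Module E Y] [IsScalarTower ℝ E Y]
    [AddCommGroup Y'] [Module ℝ Y'] [Module E Y'] [IsScalarTower ℝ E Y']
    (e : X ≃ₗ[E] X') (f : Y ≃ₗ[E] Y') : hd E X Y = hd E X' Y' := by
  unfold hd
  let f' : Y ≃ₗ[ℝ] Y' := f.restrictScalars ℝ
  refine LinearEquiv.finrank_eq
    { toFun := fun g => (f : Y →ₗ[E] Y').comp (g.comp (e.symm : X' →ₗ[E] X))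
      invFun := fun g => (f.symm : Y' →ₗ[E] Y).comp (g.comp (e : X →ₗ[E] X'))
      map_add' := ?_
      map_smul' := ?_
      left_inv := ?_
      right_inv := ?_ }
  · intro g h
    ext x
    simp
  · intro r g
    ext x
    exact f'.map_smul r _
  · intro g
    ext x
    simp
  · intro g
    ext x
    simp

end Hom

section CS

variable {E : Type} [Ring E] [Algebra ℝ E]

/-- isomorphism setoid on submodules -/
def isoSetoid (E Y : Type) [Ring E] [AddCommGroup Y] [Module E Y] : Setoid (Submodule E Y) where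
  r A B := Nonempty (A ≃ₗ[E] B)
  iseqv := ⟨fun A => ⟨LinearEquiv.refl E A⟩, fun ⟨e⟩ => ⟨e.symm⟩, fun ⟨e⟩ ⟨f⟩ => ⟨e.trans f⟩⟩

lemma decomp (M Y : Type) [AddCommGroup M] [Module E M] [AddCommGroup Y] [Module E Y]
    [IsSemisimpleModule E M] [Module.Finite E M] (φ : M →ₗ[E] Y) (hφ : Function.Injective φ) :
    ∃ (n : ℕ) (S : Fin n → Submodule E Y) (_ : M ≃ₗ[E] (∀ i, S i)),
      ∀ i, IsSimpleModule E (S i) := by
  obtain ⟨n, S, e, hS⟩ := IsSemisimpleModule.exists_linearEquiv_fin_dfinsupp E M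
  have e2 : ∀ i, S i ≃ₗ[E] (S i).map φ := fun i => Submodule.equivMapOfInjective φ hφ (S i)
  refine ⟨n, fun i => (S i).map φ, ?_, ?_⟩
  · exact (e.trans (DFinsupp.linearEquivFunOnFintype (R := E))).trans
      (LinearEquiv.piCongrRight e2)
  · intro i
    haveI := hS i
    exact IsSimpleModule.congr (e2 i).symm

/-- `(dim M)^2 ≤ dim E * dim End_E(M)` for a semisimple algebra `E`. -/
theorem cs_dim (M : Type) [Module.Finite ℝ E] [IsSemisimpleRing E]
    [AddCommGroup M] [Module ℝ M] [Module E M] [IsScalarTower ℝ E M] [Module.Finite ℝ M] :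
    (finrank ℝ M) ^ 2 ≤ finrank ℝ E * finrank ℝ (M →ₗ[E] M) := by
  classical
  haveI : Module.Finite E M := Module.Finite.of_restrictScalars_finite ℝ E M
  have hM : hd E E M = finrank ℝ M := (LinearMap.ringLmapEquivSelf E ℝ M).finrank_eq
  have hE : hd E E E = finrank ℝ E := (LinearMap.ringLmapEquivSelf E ℝ E).finrank_eq
  obtain ⟨n, S, e, hS⟩ := decomp (E := E) M (M × E) (LinearMap.inl E M E) LinearMap.inl_injective
  obtain ⟨n', S', e', hS'⟩ := decomp (E := E) E (M × E) (LinearMap.inr E M E)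
    LinearMap.inr_injective
  let Q := Quotient (isoSetoid E (M × E))
  haveI : DecidableEq Q := Classical.decEq _
  let d : Q → ℕ := Quotient.lift (fun A : Submodule E (M × E) => hd E A A) (by
    rintro A B ⟨f⟩
    exact hd_congr f f)
  have key : ∀ (A B : Submodule E (M × E)), IsSimpleModule E A → IsSimpleModule E B →
      hd E A B = if (Quotient.mk (isoSetoid E (M × E)) A : Q) = Quotient.mk _ B then
        d (Quotient.mk _ A) else 0 := by
    intro A B hA hB
    split_ifs with h
    · have h2 := Quotient.exact h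
      obtain ⟨f⟩ := (h2 : Nonempty (A ≃ₗ[E] B))
      exact (hd_congr (LinearEquiv.refl E A) f).symm
    · unfold hd
      have : ∀ g : A →ₗ[E] B, g = 0 := by
        intro g
        rcases g.bijective_or_eq_zero with hg | hg
        · exact absurd (Quotient.sound (s := isoSetoid E (M × E))
            (⟨LinearEquiv.ofBijective g hg⟩ : Nonempty (A ≃ₗ[E] B))) h
        · exact hg
      haveI : Subsingleton (A →ₗ[E] B) := ⟨fun a b => by rw [this a, this b]⟩
      exact finrank_zero_of_subsingleton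
  haveI fin : ∀ A : Submodule E (M × E), Module.Finite ℝ A := fun A =>
    Module.Finite.of_injective (A.subtype.restrictScalars ℝ) Subtype.val_injective
  have h1 : hd E M M = ∑ i, ∑ j, hd E (S i) (S j) := by
    rw [hd_congr e e]; exact hd_pi _ _
  have h2 : hd E E M = ∑ i, ∑ j, hd E (S' i) (S j) := by
    rw [hd_congr e' e]; exact hd_pi _ _
  have h3 : hd E E E = ∑ i, ∑ j, hd E (S' i) (S' j) := by
    rw [hd_congr e' e']; exact hd_pi _ _
  have k1 : ∀ i j, hd E (S i) (S j) = _ := fun i j => key (S i) (S j) (hS i) (hS j)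
  have k2 : ∀ i j, hd E (S' i) (S j) = _ := fun i j => key (S' i) (S j) (hS' i) (hS j)
  have k3 : ∀ i j, hd E (S' i) (S' j) = _ := fun i j => key (S' i) (S' j) (hS' i) (hS' j)
  simp_rw [k1] at h1
  simp_rw [k2] at h2
  simp_rw [k3] at h3
  have h4 := comb_cs (fun i => (Quotient.mk (isoSetoid E (M × E)) (S' i) : Q))
    (fun j => (Quotient.mk (isoSetoid E (M × E)) (S j) : Q)) d
  rw [← h2, ← h3, ← h1, hM, hE] at h4
  exact h4

/-- Bounding the endomorphism space by a corner. -/
theorem end_le (M C : Type) [Module.Finite ℝ E]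
    [AddCommGroup M] [Module ℝ M] [Module E M] [IsScalarTower ℝ E M] [Module.Finite ℝ M]
    [AddCommGroup C] [Module ℝ C] [Module.Finite ℝ C]
    (s : M) (Ψ : M →ₗ[ℝ] C) (κ : ℝ) (hκ : κ ≠ 0)
    (h : ∀ f : M, ∃ a : E, a • s = κ • f ∧ ∀ g : M, Ψ g = 0 → a • g = 0) :
    finrank ℝ (M →ₗ[E] M) ≤ finrank ℝ C := by
  haveI := hom_finite (E := E) M M
  let Φ : (M →ₗ[E] M) →ₗ[ℝ] C :=
    { toFun := fun φ => Ψ (φ s)
      map_add' := fun φ ψ => by simp
      map_smul' := fun r φ => by simp }
  refine LinearMap.finrank_le_finrank_of_injective (f := Φ) ?_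
  rw [← LinearMap.ker_eq_bot, LinearMap.ker_eq_bot']
  intro φ hφ
  ext f
  obtain ⟨a, ha1, ha2⟩ := h f
  have e1 : φ (a • s) = a • φ s := φ.map_smul a s
  rw [ha2 _ hφ, ha1] at e1
  have e2 : φ (κ • f) = κ • φ f := (φ.restrictScalars ℝ).map_smul _ _
  rw [e2] at e1
  exact (smul_eq_zero.mp e1).resolve_left hκ

end CS

open Matrix

section Star
variable {I : Type} [Fintype I] [DecidableEq I]

/-- the orthogonal complement of a submodule -/
def orthC (E : Subalgebra ℝ (Matrix I I ℝ)) (hE : ∀ A ∈ E, A.transpose ∈ E)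
    (W : Submodule E (I → ℝ)) : Submodule E (I → ℝ) where
  carrier := {v | ∀ w ∈ W, v ⬝ᵥ w = 0}
  add_mem' := by
    intro a b ha hb w hw
    rw [add_dotProduct, ha w hw, hb w hw, add_zero]
  zero_mem' := by
    intro w _
    exact zero_dotProduct w
  smul_mem' := by
    intro A v hv w hw
    have h1 : (A • v : I → ℝ) = (A : Matrix I I ℝ) *ᵥ v := rfl
    rw [h1, dotProduct_comm, dotProduct_mulVec, ← mulVec_transpose, dotProduct_comm]
    exact hv _ (W.smul_mem ⟨(A : Matrix I I ℝ).transpose, hE _ A.2⟩ hw)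

theorem star_semisimple_vec (E : Subalgebra ℝ (Matrix I I ℝ)) (hE : ∀ A ∈ E, A.transpose ∈ E) :
    IsSemisimpleModule E (I → ℝ) := by
  suffices h : ∀ W : Submodule E (I → ℝ), IsCompl W (orthC E hE W) by
    haveI : ComplementedLattice (Submodule E (I → ℝ)) := ⟨fun W => ⟨orthC E hE W, h W⟩⟩
    exact {}
  intro W
  have hdisj : Disjoint W (orthC E hE W) := by
    rw [Submodule.disjoint_def]
    intro v hv hv'
    exact dotProduct_self_eq_zero.mp (hv' v hv)
  refine ⟨hdisj, ?_⟩
  let W₀ : Submodule ℝ (I → ℝ) := W.restrictScalars ℝ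
  let W₁ : Submodule ℝ (I → ℝ) := (orthC E hE W).restrictScalars ℝ
  have hd : Disjoint W₀ W₁ := by
    rw [Submodule.disjoint_def]
    intro v hv hv'
    exact dotProduct_self_eq_zero.mp (hv' v hv)
  let L : (I → ℝ) →ₗ[ℝ] (W₀ →ₗ[ℝ] ℝ) :=
    { toFun := fun v => 
        { toFun := fun w => v ⬝ᵥ (w : I → ℝ)
          map_add' := fun a b => dotProduct_add _ _ _
          map_smul' := fun r a => dotProduct_smul _ _ _ }
      map_add' := fun a b => by ext w; exact add_dotProduct _ _ _
      map_smul' := fun r a => by ext w; exact smul_dotProduct _ _ _ }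
  have hker : LinearMap.ker L = W₁ := by
    ext v
    constructor
    · intro h w hw
      exact LinearMap.congr_fun (LinearMap.mem_ker.mp h) ⟨w, hw⟩
    · intro h
      rw [LinearMap.mem_ker]
      ext w
      exact h w.1 w.2
  have hr := LinearMap.finrank_range_add_finrank_ker L
  have hr2 : finrank ℝ (LinearMap.range L) ≤ finrank ℝ W₀ := by
    refine (Submodule.finrank_le _).trans ?_
    exact le_of_eq (Subspace.dual_finrank_eq)
  rw [hker] at hr
  have htop : W₀ ⊔ W₁ = ⊤ := by
    apply Submodule.eq_top_of_finrank_eq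
    have h1 := Submodule.finrank_sup_add_finrank_inf_eq W₀ W₁
    rw [hd.eq_bot, finrank_bot, add_zero] at h1
    have h2 := Submodule.finrank_le (W₀ ⊔ W₁)
    omega
  rw [codisjoint_iff]
  rw [eq_top_iff]
  intro v _
  have : v ∈ W₀ ⊔ W₁ := by rw [htop]; trivial
  obtain ⟨a, ha, b, hb, hab⟩ := Submodule.mem_sup.mp this
  exact Submodule.mem_sup.mpr ⟨a, ha, b, hb, hab⟩

theorem star_semisimple (E : Subalgebra ℝ (Matrix I I ℝ)) (hE : ∀ A ∈ E, A.transpose ∈ E) :
    IsSemisimpleRing E := by
  haveI := star_semisimple_vec E hE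
  let L : E →ₗ[E] (I → (I → ℝ)) :=
    { toFun := fun e j => e • (Pi.single j 1 : I → ℝ)
      map_add' := fun a b => by funext j; exact add_smul _ _ _
      map_smul' := fun a b => by funext j; exact mul_smul _ _ _ }
  refine IsSemisimpleModule.of_injective L ?_
  intro a b h
  apply Subtype.ext
  ext i j
  have h1 := congrFun (congrFun h j) i
  have h2 : ∀ e : E, L e j i = (e : Matrix I I ℝ) i j := by
    intro e
    show ((e : Matrix I I ℝ) *ᵥ (Pi.single j 1 : I → ℝ)) i = _
    simp
  rw [h2, h2] at h1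
  exact h1

end Star

end Pool.Agent.L0h61.AED
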