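import Mathlib
import Pool.Agent.L0h61.AED.Comp
import Pool.Agent.L0h61.AED.Semi

/-!
The dimensions `tt k n` of the diagram spaces: log-convexity, growth, and the ratio limit `k^2`.
-/

set_option autoImplicit false

namespace Pool.Agent.L0h61.AED

open Module Matrix

/-- `t_n`. -/
noncomputable def tt (k n : ℕ) : ℕ := finrank ℝ (TS k (Fin n) (Fin n))

/-- relabelling equivalence -/
def TSequiv {k : ℕ} {O I O' I' : Type} (e : O ≃ O') (e' : I ≃ I') :
    TS k O I ≃ₗ[ℝ] TS k O' I' where
  toFun f := ⟨_, TS_relabel e e' f.2⟩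
  map_add' _ _ := rfl
  map_smul' _ _ := rfl
  invFun f := ⟨_, TS_relabel e.symm e'.symm f.2⟩
  left_inv f := by
    apply Subtype.ext
    funext u v
    show f.1 ((u ∘ e.symm) ∘ e) ((v ∘ e'.symm) ∘ e') = f.1 u v
    have h1 : (u ∘ e.symm) ∘ e = u := by funext x; simp
    have h2 : (v ∘ e'.symm) ∘ e' = v := by funext x; simp
    rw [h1, h2]
  right_inv f := by
    apply Subtype.ext
    funext u v
    show f.1 ((u ∘ e) ∘ e.symm) ((v ∘ e') ∘ e'.symm) = f.1 u v
    have h1 : (u ∘ e) ∘ e.symm = u := by funext x; simp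
    have h2 : (v ∘ e') ∘ e'.symm = v := by funext x; simp
    rw [h1, h2]

lemma finrank_TS {k n : ℕ} {O I : Type} [Fintype O] [Fintype I] (hO : Fintype.card O = n)
    (hI : Fintype.card I = n) : finrank ℝ (TS k O I) = tt k n :=
  (TSequiv (Fintype.equivFinOfCardEq hO) (Fintype.equivFinOfCardEq hI)).finrank_eq

lemma finrank_Hm {k n : ℕ} {a b c d : Type} [Fintype a] [Fintype b] [Fintype c] [Fintype d]
    (h1 : Fintype.card c + Fintype.card b = n) (h2 : Fintype.card d + Fintype.card a = n) :
    finrank ℝ (Hm k a b c d) = tt k n := by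
  rw [(hmEquiv k a b c d).finrank_eq]
  exact finrank_TS (by simp [h1]) (by simp [h2])

/-- The endomorphism algebra of an object. -/
def EndA (k : ℕ) (a b : Type) [Fintype a] [DecidableEq a] [Fintype b] [DecidableEq b] :
    Subalgebra ℝ (Matrix ((a → Fin k) × (b → Fin k)) ((a → Fin k) × (b → Fin k)) ℝ) where
  carrier := Hm k a b a b
  mul_mem' h1 h2 := Hm_mul h1 h2
  one_mem' := Hm_one
  add_mem' h1 h2 := Submodule.add_mem _ h1 h2
  zero_mem' := Submodule.zero_mem _
  algebraMap_mem' r := by
    rw [Algebra.algebraMap_eq_smul_one]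
    exact Submodule.smul_mem _ r Hm_one

section Conv

variable (k : ℕ) (a b c d : Type) [Fintype a] [DecidableEq a] [Fintype b] [DecidableEq b]
  [Fintype c] [DecidableEq c] [Fintype d] [DecidableEq d]

/-- Hom space as a left module over the endomorphism algebra. -/
def HomM : Submodule (EndA k c d) (((a → Fin k) × (b → Fin k)) → ((c → Fin k) × (d → Fin k)) → ℝ)
    where
  carrier := {F | (Matrix.of F).transpose ∈ Hm k a b c d}
  add_mem' h1 h2 := Submodule.add_mem (Hm k a b c d) h1 h2
  zero_mem' := Submodule.zero_mem (Hm k a b c d)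
  smul_mem' A F hF := by
    have : (Matrix.of (A • F)).transpose = (A : Matrix _ _ ℝ) * (Matrix.of F).transpose := by
      ext y x
      rfl
    show (Matrix.of (A • F)).transpose ∈ Hm k a b c d
    rw [this]
    exact Hm_mul A.2 hF

/-- -/
def homMEquiv : HomM k a b c d ≃ₗ[ℝ] Hm k a b c d where
  toFun F := ⟨(Matrix.of F.1).transpose, F.2⟩
  map_add' _ _ := rfl
  map_smul' _ _ := rfl
  invFun M := ⟨fun x y => M.1 y x, M.2⟩
  left_inv _ := rfl
  right_inv _ := rfl

end Conv

section LogConvex

variable {k n : ℕ}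

abbrev IX (k n : ℕ) := (Fin n → Fin k) × (Empty → Fin k)
abbrev IY (k n : ℕ) := (Option (Fin n) → Fin k) × (Unit → Fin k)

/-- the embedding `X → Y`. -/
def sMat (k n : ℕ) : Matrix (IY k n) (IX k n) ℝ :=
  Matrix.of fun y x => if y.1 = ext (y.2 ()) x.1 then 1 else 0

/-- the underlying equivalence of slots. -/
def sEq (n : ℕ) : Option (Fin n) ⊕ Empty ≃ Unit ⊕ Fin n where
  toFun x := match x with
    | Sum.inl none => Sum.inl ()
    | Sum.inl (some j) => Sum.inr j
    | Sum.inr e => e.elim
  invFun x := match x with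
    | Sum.inl _ => Sum.inl none
    | Sum.inr j => Sum.inl (some j)
  left_inv := by rintro ((_ | x) | x) <;> first | rfl | exact x.elim
  right_inv := by rintro (x | x) <;> rfl

lemma sMat_mem : sMat k n ∈ Hm k (Fin n) Empty (Option (Fin n)) Unit := by
  classical
  rw [mem_Hm]
  convert T_mem (k := k) (sEq n) using 1
  funext u v
  rw [T_apply]
  show (if _ then _ else _) = _
  congr 1
  apply propext
  constructor
  · intro h
    funext x
    rcases x with (_ | x) | x
    · exact congrFun h none
    · exact congrFun h (some x)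
    · exact x.elim
  · intro h
    funext x
    rcases x with _ | x
    · exact congrFun h (Sum.inl none)
    · exact congrFun h (Sum.inl (some x))

lemma sMat_mul : (sMat k n).transpose * sMat k n = (k : ℝ) • 1 := by
  ext x x'
  rw [Matrix.mul_apply, Matrix.smul_apply, Matrix.one_apply]
  simp only [Matrix.transpose_apply, sMat, Matrix.of_apply]
  rw [Fintype.sum_prod_type_right]
  have : ∀ r : Unit → Fin k, (∑ u : Option (Fin n) → Fin k,
      (if u = ext (r ()) x.1 then (1:ℝ) else 0) * (if u = ext (r ()) x'.1 then 1 else 0)) =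
      if x = x' then 1 else 0 := by
    intro r
    rw [Finset.sum_eq_single (ext (r ()) x.1)]
    · rw [if_pos rfl, one_mul]
      congr 1
      apply propext
      constructor
      · intro h
        refine Prod.ext ?_ (Subsingleton.elim _ _)
        funext j
        exact congrFun h (some j)
      · intro h
        rw [h]
    · intro u _ hu
      rw [if_neg hu, zero_mul]
    · intro h
      exact absurd (Finset.mem_univ _) h
  simp only [this]
  rw [Finset.sum_const, Finset.card_univ]
  simp

instance : Module.Finite ℝ (HomM k (Fin n) Empty (Option (Fin n)) Unit) :=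
  Module.Finite.equiv (homMEquiv k (Fin n) Empty (Option (Fin n)) Unit).symm

/-- `h ↦ sᵀ * h`. -/
def PsiMap (k n : ℕ) : HomM k (Fin n) Empty (Option (Fin n)) Unit →ₗ[ℝ]
    Hm k (Fin n) Empty (Fin n) Empty where
  toFun h := ⟨(sMat k n).transpose * (Matrix.of h.1).transpose,
          Hm_mul (Hm_transpose sMat_mem) h.2⟩
  map_add' := by
    intro φ ψ
    apply Subtype.ext
    exact Matrix.mul_add _ _ _
  map_smul' := by
    intro r φ
    apply Subtype.ext
    show (sMat k n).transpose * (r • (Matrix.of φ.1).transpose) =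
      r • ((sMat k n).transpose * (Matrix.of φ.1).transpose)
    rw [Matrix.mul_smul]

theorem tt_logconvex (hk : 1 ≤ k) : (tt k (n + 1)) ^ 2 ≤ tt k (n + 2) * tt k n := by
  haveI : IsSemisimpleRing (EndA k (Option (Fin n)) Unit) :=
    star_semisimple _ (fun A hA => Hm_transpose hA)
  have h := cs_dim (E := EndA k (Option (Fin n)) Unit)
    (HomM k (Fin n) Empty (Option (Fin n)) Unit)
  have h1 : finrank ℝ (HomM k (Fin n) Empty (Option (Fin n)) Unit) = tt k (n + 1) := by
    rw [(homMEquiv k (Fin n) Empty (Option (Fin n)) Unit).finrank_eq]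
    exact finrank_Hm (by simp) (by simp [add_comm])
  have h2 : finrank ℝ (EndA k (Option (Fin n)) Unit) = tt k (n + 2) := by
    have : finrank ℝ (EndA k (Option (Fin n)) Unit) =
        finrank ℝ (Hm k (Option (Fin n)) Unit (Option (Fin n)) Unit) := rfl
    rw [this]
    exact finrank_Hm (by simp) (by simp; omega)
  have hk0 : (k : ℝ) ≠ 0 := by
    have : 0 < k := hk
    positivity
  have h4 : finrank ℝ (Hm k (Fin n) Empty (Fin n) Empty) = tt k n :=
      finrank_Hm (by simp) (by simp)
  have h3 := end_le (E := EndA k (Option (Fin n)) Unit)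
    (HomM k (Fin n) Empty (Option (Fin n)) Unit) (Hm k (Fin n) Empty (Fin n) Empty)
    ⟨fun x y => sMat k n y x, sMat_mem⟩ (PsiMap k n) k hk0 (by
      intro f
      refine ⟨⟨(Matrix.of f.1).transpose * (sMat k n).transpose,
        Hm_mul f.2 (Hm_transpose sMat_mem)⟩, ?_, ?_⟩
      · apply Subtype.ext
        have e3 : (Matrix.of f.1).transpose * (sMat k n).transpose * sMat k n
            = (k : ℝ) • (Matrix.of f.1).transpose := by
          rw [Matrix.mul_assoc, sMat_mul, Matrix.mul_smul, Matrix.mul_one]
        exact congrArg Matrix.transpose e3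
      · intro g hg
        apply Subtype.ext
        have hg' : (sMat k n).transpose * (Matrix.of g.1).transpose = 0 :=
          congrArg Subtype.val hg
        have e3 : (Matrix.of f.1).transpose * (sMat k n).transpose * (Matrix.of g.1).transpose
            = 0 := by
          rw [Matrix.mul_assoc, hg', Matrix.mul_zero]
        exact congrArg Matrix.transpose e3)
  rw [h1, h2] at h
  rw [h4] at h3
  exact h.trans (Nat.mul_le_mul_left _ h3)

end LogConvex

section Upper

lemma tt_le (k n : ℕ) : tt k n ≤ (k ^ 2) ^ n := by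
  unfold tt
  refine (Submodule.finrank_le _).trans ?_
  rw [Module.finrank_pi_fintype]
  simp [Module.finrank_pi_fintype]
  rw [← pow_mul, ← pow_add]
  apply le_of_eq
  congr 1
  ring

lemma tt_pos {k : ℕ} (hk : 1 ≤ k) (n : ℕ) : 0 < tt k n := by
  classical
  unfold tt
  have h0 : T (k := k) (Equiv.refl (Fin n)) ≠ 0 := by
    intro h
    have := congrFun (congrFun h (fun _ => (⟨0, hk⟩ : Fin k))) (fun _ => ⟨0, hk⟩)
    rw [T_apply, if_pos] at this
    · simp at this
    · rfl
  have : Nontrivial (TS k (Fin n) (Fin n)) :=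
    ⟨⟨⟨_, T_mem (Equiv.refl (Fin n))⟩, 0, fun h => h0 (congrArg Subtype.val h)⟩⟩
  exact Module.finrank_pos

end Upper

section Lower

variable {k n : ℕ}

/-- words with equal letter counts are permutations of each other. -/
lemma exists_perm {κ : Type} [Fintype κ] [DecidableEq κ] (w w' : Fin n → κ)
    (h : ∀ p, (Finset.univ.filter (fun i => w i = p)).card =
      (Finset.univ.filter (fun i => w' i = p)).card) : ∃ σ : Equiv.Perm (Fin n), w' = w ∘ σ := by
  have e : ∀ p, {i // w' i = p} ≃ {i // w i = p} := fun p =>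
    Fintype.equivOfCardEq (by rw [Fintype.card_subtype, Fintype.card_subtype, h p])
  refine ⟨((Equiv.sigmaFiberEquiv w').symm.trans (Equiv.sigmaCongrRight e)).trans
    (Equiv.sigmaFiberEquiv w), ?_⟩
  funext i
  exact (((Equiv.sigmaCongrRight e) ((Equiv.sigmaFiberEquiv w').symm i)).2.2).symm

/-- The diagram matrix of a permutation on `(Fin n, Empty)`. -/
def pMat (k : ℕ) {n : ℕ} (σ : Equiv.Perm (Fin n)) : Matrix (IX k n) (IX k n) ℝ :=
  Matrix.of fun x y => if x.1 = y.1 ∘ σ then 1 else 0

lemma pMat_mem (σ : Equiv.Perm (Fin n)) : pMat k σ ∈ Hm k (Fin n) Empty (Fin n) Empty := by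
  classical
  rw [mem_Hm]
  convert T_mem (k := k) (((Equiv.sumEmpty (Fin n) Empty).trans σ).trans
    (Equiv.emptySum Empty (Fin n)).symm) using 1
  funext u v
  rw [T_apply]
  show (if _ then _ else _) = _
  congr 1
  apply propext
  constructor
  · intro h
    funext x
    rcases x with x | x
    · exact congrFun h x
    · exact x.elim
  · intro h
    funext x
    exact congrFun h (Sum.inl x)

/-- the pair word of two index words -/
def pw (z : IX k n × IX k n) : Fin n → Fin k × Fin k := fun i => (z.1.1 i, z.2.1 i)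

/-- composing an index with a permutation -/
def ixp (x : IX k n) (σ : Equiv.Perm (Fin n)) : IX k n := (x.1 ∘ σ, x.2)

/-- contents -/
def cnt (w : Fin n → Fin k × Fin k) : Fin k × Fin k → Fin (n + 1) := fun p =>
  ⟨(Finset.univ.filter (fun i => w i = p)).card, by
      exact Nat.lt_succ_of_le (by
        simpa using Finset.card_le_univ (Finset.univ.filter (fun i => w i = p)))⟩

lemma pMat_single (σ : Equiv.Perm (Fin n)) (y : IX k n) (r : ℝ) :
    pMat k σ *ᵥ (Pi.single y r : IX k n → ℝ) = Pi.single (ixp y σ) r := by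
  classical
  ext x
  rw [Matrix.mulVec_single]
  simp only [pMat, Matrix.col, Pi.smul_apply, Matrix.transpose_apply, Matrix.of_apply, Pi.single_apply]
  have : (x.1 = y.1 ∘ σ) ↔ x = ixp y σ := by
    constructor
    · intro h
      exact Prod.ext h (Subsingleton.elim _ _)
    · intro h
      rw [h]; rfl
  simp only [this]
  split_ifs <;> simp

theorem tt_growth (k n : ℕ) : ((k ^ 2) ^ n) ≤ tt k n * (n + 1) ^ (k ^ 2) := by
  classical
  haveI : IsSemisimpleRing (EndA k (Fin n) Empty) :=
    star_semisimple _ (fun A hA => Hm_transpose hA)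
  have h := cs_dim (E := EndA k (Fin n) Empty) (IX k n → ℝ)
  have h1 : finrank ℝ (IX k n → ℝ) ^ 2 = (k ^ 2) ^ n := by
    rw [Module.finrank_fintype_fun_eq_card]
    simp
    ring
  have h2 : finrank ℝ (EndA k (Fin n) Empty) = tt k n := by
    have : finrank ℝ (EndA k (Fin n) Empty) =
        finrank ℝ (Hm k (Fin n) Empty (Fin n) Empty) := rfl
    rw [this]
    exact finrank_Hm (by simp) (by simp)
  rw [h1, h2] at h
  refine h.trans (Nat.mul_le_mul_left _ ?_)
  haveI := hom_finite (E := EndA k (Fin n) Empty) (IX k n → ℝ) (IX k n → ℝ)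
  let Φ : ((IX k n → ℝ) →ₗ[EndA k (Fin n) Empty] (IX k n → ℝ)) →ₗ[ℝ]
      ((Fin k × Fin k → Fin (n + 1)) → ℝ) :=
    { toFun := fun φ c => if h : ∃ z : IX k n × IX k n, cnt (pw z) = c then
        φ (Pi.single h.choose.2 1) h.choose.1 else 0
      map_add' := by
        intro φ ψ
        funext c
        by_cases h : ∃ z : IX k n × IX k n, cnt (pw z) = c
        · simp only [Pi.add_apply, dif_pos h, LinearMap.add_apply]
        · simp only [Pi.add_apply, dif_neg h, add_zero]
      map_smul' := by
        intro r φ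
        funext c
        by_cases h : ∃ z : IX k n × IX k n, cnt (pw z) = c
        · simp only [Pi.smul_apply, dif_pos h, LinearMap.smul_apply, RingHom.id_apply]
        · simp only [Pi.smul_apply, dif_neg h, RingHom.id_apply, smul_zero] }
  have h3 : finrank ℝ ((Fin k × Fin k → Fin (n + 1)) → ℝ) = (n + 1) ^ (k ^ 2) := by
    rw [Module.finrank_fintype_fun_eq_card]
    simp [pow_two]
  rw [← h3]
  refine LinearMap.finrank_le_finrank_of_injective (f := Φ) ?_
  rw [← LinearMap.ker_eq_bot, LinearMap.ker_eq_bot']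
  intro φ hφ
  have equi : ∀ (σ : Equiv.Perm (Fin n)) (x y : IX k n),
      φ (Pi.single (ixp y σ) 1) (ixp x σ) = φ (Pi.single y 1) x := by
    intro σ x y
    have e1 : φ ((⟨pMat k σ, pMat_mem σ⟩ : EndA k (Fin n) Empty) • (Pi.single y 1 : IX k n → ℝ)) =
        (⟨pMat k σ, pMat_mem σ⟩ : EndA k (Fin n) Empty) • φ (Pi.single y 1) := φ.map_smul _ _
    have e2 : (⟨pMat k σ, pMat_mem σ⟩ : EndA k (Fin n) Empty) • (Pi.single y 1 : IX k n → ℝ)
        = Pi.single (ixp y σ) 1 := pMat_single σ y 1
    rw [e2] at e1
    rw [e1]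
    show (pMat k σ *ᵥ φ (Pi.single y 1)) (ixp x σ) = _
    simp only [Matrix.mulVec, dotProduct, pMat, Matrix.of_apply]
    rw [Finset.sum_eq_single x]
    · rw [if_pos (by rfl), one_mul]
    · intro z _ hz
      rw [if_neg, zero_mul]
      intro h
      apply hz
      refine Prod.ext ?_ (Subsingleton.elim _ _)
      have h' : x.1 ∘ σ = z.1 ∘ σ := h
      exact (σ.surjective.injective_comp_right h').symm
    · intro h
      exact absurd (Finset.mem_univ _) h
  have zero : ∀ x y : IX k n, φ (Pi.single y 1) x = 0 := by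
    intro x y
    have hc := congrFun hφ (cnt (pw (x, y)))
    have hex : ∃ z : IX k n × IX k n, cnt (pw z) = cnt (pw (x, y)) := ⟨(x, y), rfl⟩
    have hc' : (if h : ∃ z : IX k n × IX k n, cnt (pw z) = cnt (pw (x, y)) then
        φ (Pi.single h.choose.2 1) h.choose.1 else 0) = 0 := hc
    rw [dif_pos hex] at hc'
    have hsp := hex.choose_spec
    obtain ⟨σ, hσ⟩ := exists_perm (pw (x, y)) (pw hex.choose) (by
      intro p
      have := congrFun hsp p
      have := congrArg Fin.val this
      exact this.symm)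
    have e1 : hex.choose.1 = ixp x σ := by
      refine Prod.ext ?_ (Subsingleton.elim _ _)
      funext i
      exact congrArg Prod.fst (congrFun hσ i)
    have e2 : hex.choose.2 = ixp y σ := by
      refine Prod.ext ?_ (Subsingleton.elim _ _)
      funext i
      exact congrArg Prod.snd (congrFun hσ i)
    rw [e1, e2, equi] at hc'
    exact hc'
  have hr : (φ.restrictScalars ℝ) = 0 := by
    apply LinearMap.pi_ext'
    intro y
    ext x
    simpa using zero x y
  ext v x
  exact congrFun (LinearMap.congr_fun hr v) x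

end Lower

end Pool.Agent.L0h61.AED
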