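import Mathlib
import Pool.Agent.L0h61.AED.Absorb
import Pool.Agent.L0h61.AED.Growth

/-!
The space `SS` of multilinear noncommutative polynomial functions, its trace image `Rn`.
-/

set_option autoImplicit false

namespace Pool.Agent.L0h61.AED

open Module Matrix

variable {k : ℕ}

/-- the span of the multilinear monomials on matrices. -/
noncomputable def SS (k n : ℕ) : Submodule ℝ ((Fin n → Mk k) → Mk k) :=
  Submodule.span ℝ (Set.range (fun σ : Equiv.Perm (Fin n) =>
    fun x : Fin n → Mk k => (List.ofFn (fun i => x (σ i))).prod))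

/-- the matrix units word from out/in indices -/
def Euv {J : Type} (u v : J → Fin k) : J → Mk k := Ew (fun j => (v j, u j))

lemma Euv_comp {J J' : Type} (u v : J → Fin k) (e : J' → J) :
    Euv u v ∘ e = Euv (u ∘ e) (v ∘ e) := rfl

lemma Tm_Euv {J : Type} [Fintype J] [DecidableEq J] (σ : Equiv.Perm J) (u v : J → Fin k) :
    Tm σ (Euv u v) = T σ u v := Tm_Ew σ _

/-- `Φ ↦ tr (Φ(x) x_none)` on matrix units. -/
def rho (k n : ℕ) : ((Fin n → Mk k) → Mk k) →ₗ[ℝ]
    ((Option (Fin n) → Fin k) → (Option (Fin n) → Fin k) → ℝ) where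
  toFun Φ := fun u v => Φ (Euv (u ∘ some) (v ∘ some)) (u none) (v none)
  map_add' _ _ := rfl
  map_smul' _ _ := rfl

/-- trace image of the polynomial functions -/
noncomputable def Rn (k n : ℕ) :
    Submodule ℝ ((Option (Fin n) → Fin k) → (Option (Fin n) → Fin k) → ℝ) :=
  (SS k n).map (rho k n)

/-- trace of a matrix function on matrix units. -/
noncomputable def trw {J : Type} : ((J → Mk k) → Mk k) →ₗ[ℝ]
    ((J → Fin k) → (J → Fin k) → ℝ) where
  toFun g := fun u v => (g (Euv u v)).trace
  map_add' _ _ := by funext u v; simp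
  map_smul' _ _ := by funext u v; simp

lemma exists_map_some {α : Type} (l : List (Option α)) (h : none ∉ l) :
    ∃ l' : List α, l'.map some = l := by
  induction l with
  | nil => exact ⟨[], rfl⟩
  | cons a l ih =>
    rw [List.mem_cons, not_or] at h
    obtain ⟨l', hl'⟩ := ih h.2
    rcases a with _ | a
    · exact absurd rfl h.1
    · exact ⟨a :: l', by simp [hl']⟩

lemma exists_perm_ofFn {n : ℕ} (l : List (Fin n)) (h1 : l.Nodup) (h2 : ∀ j, j ∈ l) :
    ∃ σ : Equiv.Perm (Fin n), List.ofFn σ = l := by
  have hlen : l.length = n := by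
    have := Fintype.card_congr (h1.getEquivOfForallMemList l h2)
    simpa using this
  refine ⟨(finCongr hlen.symm).trans (h1.getEquivOfForallMemList l h2), ?_⟩
  apply List.ext_getElem
  · simp [hlen]
  · intro i h3 h4
    simp [List.Nodup.getEquivOfForallMemList]

lemma trace_mul_single (M : Mk k) (a b : Fin k) :
    (M * Matrix.single a b 1).trace = M b a := by
  rw [Matrix.trace_mul_single]
  simp

lemma trw_mem_Rn {n : ℕ} {g : (Option (Fin n) → Mk k) → Mk k} (hg : g ∈ NN k (Option (Fin n))) :
    trw g ∈ Rn k n := by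
  have : NN k (Option (Fin n)) ≤ (Rn k n).comap trw := by
    unfold NN
    rw [Submodule.span_le]
    rintro _ ⟨l, h1, h2, rfl⟩
    obtain ⟨l1, l2, rfl⟩ := List.append_of_mem (h2 none)
    have h4 := List.nodup_middle.mp h1
    rw [List.nodup_cons, List.mem_append, not_or] at h4
    obtain ⟨l', hl'⟩ := exists_map_some (l2 ++ l1) (by
      rw [List.mem_append, not_or]; exact ⟨h4.1.2, h4.1.1⟩)
    have h5 : l'.Nodup := by
      have : (l'.map some).Nodup := by
        rw [hl']
        exact List.nodup_append_comm.mp h4.2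
      exact this.of_map _
    have h6 : ∀ j, j ∈ l' := by
      intro j
      have h7 := h2 (some j)
      have h8 : some j ∈ l2 ++ l1 := by
        simp at h7 ⊢
        tauto
      rw [← hl'] at h8
      simpa using h8
    obtain ⟨σ, hσ⟩ := exists_perm_ofFn l' h5 h6
    refine ⟨fun x => (List.ofFn (fun i => x (σ i))).prod,
      Submodule.subset_span ⟨σ, rfl⟩, ?_⟩
    funext u v
    show (List.ofFn fun i => Euv (u ∘ some) (v ∘ some) (σ i)).prod (u none) (v none) =
      (mon (l1 ++ none :: l2) (Euv u v)).trace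
    unfold mon
    rw [List.map_append, List.prod_append, List.map_cons, List.prod_cons, ← mul_assoc,
      Matrix.trace_mul_comm, ← mul_assoc, ← List.prod_append, ← List.map_append, ← hl',
      List.map_map]
    have e1 : Euv u v none = Matrix.single (v none) (u none) 1 := rfl
    rw [e1, trace_mul_single]
    have e2 : (List.ofFn fun i => Euv (u ∘ some) (v ∘ some) (σ i)) =
        l'.map (Euv u v ∘ some) := by
      rw [← hσ, List.map_ofFn]
      rfl
    rw [e2]
  exact this hg

/-- the generic monomial `x_0 x_1 ... x_{n-1}` -/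
lemma mono_mem_TS (n : ℕ) :
    (fun (u v : Option (Fin n) → Fin k) =>
      (List.ofFn fun i : Fin n => Euv u v (some i)).prod (u none) (v none)) ∈
      TS k (Option (Fin n)) (Option (Fin n)) := by
  classical
  induction n with
  | zero =>
    convert T_mem (k := k) (Equiv.refl (Option (Fin 0))) using 1
    funext u v
    rw [T_apply]
    simp only [List.ofFn_zero, List.prod_nil, Matrix.one_apply]
    congr 1
    apply propext
    constructor
    · intro h
      funext x
      rcases x with _ | x
      · exact h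
      · exact x.elim0
    · intro h
      exact congrFun h none
  | succ n ih =>
    let eO : Unit ⊕ Option (Fin n) ≃ Option (Fin (n + 1)) :=
      { toFun := fun x => match x with
          | Sum.inl _ => none
          | Sum.inr none => some 0
          | Sum.inr (some i) => some i.succ
        invFun := fun x => match x with
          | none => Sum.inl ()
          | some i => Fin.cases (Sum.inr none) (fun j => Sum.inr (some j)) i
        left_inv := by rintro (x | (_ | x)) <;> rfl
        right_inv := by
          rintro (_ | x)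
          · rfl
          · refine Fin.cases ?_ (fun j => ?_) x <;> rfl }
    let eI : Unit ⊕ Option (Fin n) ≃ Option (Fin (n + 1)) :=
      { toFun := fun x => match x with
          | Sum.inl _ => some 0
          | Sum.inr none => none
          | Sum.inr (some i) => some i.succ
        invFun := fun x => match x with
          | none => Sum.inr none
          | some i => Fin.cases (Sum.inl ()) (fun j => Sum.inr (some j)) i
        left_inv := by rintro (x | (_ | x)) <;> rfl
        right_inv := by
          rintro (_ | x)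
          · rfl
          · refine Fin.cases ?_ (fun j => ?_) x <;> rfl }
    have h1 := TS_relabel eO eI (TS_tensor (T_mem (k := k) (Equiv.refl Unit)) ih)
    convert h1 using 1
    funext u v
    rw [List.ofFn_succ, List.prod_cons]
    have e1 : Euv u v (some (0 : Fin (n + 1))) =
        Matrix.single (v (some 0)) (u (some 0)) 1 := rfl
    rw [e1, T_apply]
    by_cases h : u none = v (some 0)
    · rw [h, Matrix.single_mul_apply_same, one_mul, if_pos, one_mul]
      · rfl
      · funext x
        exact h
    · rw [Matrix.single_mul_apply_of_ne _ _ _ _ _ h, if_neg, zero_mul]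
      intro h2
      exact h (congrFun h2 ())

lemma Rn_le_TS (n : ℕ) : Rn k n ≤ TS k (Option (Fin n)) (Option (Fin n)) := by
  unfold Rn SS
  rw [Submodule.map_span_le]
  rintro _ ⟨σ, rfl⟩
  have h := TS_relabel (Equiv.optionCongr σ) (Equiv.optionCongr σ) (mono_mem_TS (k := k) n)
  exact h

lemma trw_mem_TS {J : Type} {n : ℕ} (e : J ≃ Option (Fin n)) {g : (J → Mk k) → Mk k}
    (hg : g ∈ NN k J) : trw g ∈ TS k J J := by
  have h1 := Rn_le_TS n (trw_mem_Rn (NN_relabel e hg))
  have h2 := TS_relabel e.symm e.symm h1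
  convert h2 using 1
  funext u v
  show (g (Euv u v)).trace = (g (Euv (u ∘ e.symm) (v ∘ e.symm) ∘ e)).trace
  congr 2
  funext j
  simp [Euv, Ew]

/-- the Capelli trace function -/
noncomputable def Hf (k : ℕ) : (AV k → Fin k) → (AV k → Fin k) → ℝ := trw (cap (k := k))

lemma Hf_mem (hk : 1 ≤ k) : Hf k ∈ TS k (AV k) (AV k) := by
  have hc : Fintype.card (AV k) = (k * k + k * k - 1) + 1 := by
    simp
    have : 0 < k * k := by positivity
    omega
  have e : AV k ≃ Option (Fin (k * k + k * k - 1)) :=
    (Fintype.equivFinOfCardEq hc).trans (finSuccEquiv _)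
  exact trw_mem_TS e cap_mem

/-- `H ⊗ τ` lies in `Rn`. -/
theorem H_mul_mem_Rn (hk : 1 ≤ k) {n q : ℕ} (φ : AV k ⊕ Fin q ≃ Option (Fin n))
    {τ : (Fin q → Fin k) → (Fin q → Fin k) → ℝ} (hτ : τ ∈ TS k (Fin q) (Fin q)) :
    (fun (u v : Option (Fin n) → Fin k) =>
      Hf k (u ∘ φ ∘ Sum.inl) (v ∘ φ ∘ Sum.inl) * τ (u ∘ φ ∘ Sum.inr) (v ∘ φ ∘ Sum.inr)) ∈
      Rn k n := by
  let L : ((Fin q → Fin k) → (Fin q → Fin k) → ℝ) →ₗ[ℝ]
      ((Option (Fin n) → Fin k) → (Option (Fin n) → Fin k) → ℝ) :=
    { toFun := fun τ => (fun (u v : Option (Fin n) → Fin k) =>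
      Hf k (u ∘ φ ∘ Sum.inl) (v ∘ φ ∘ Sum.inl) * τ (u ∘ φ ∘ Sum.inr) (v ∘ φ ∘ Sum.inr))
      map_add' := by intro a b; funext u v; simp [mul_add]
      map_smul' := by intro r a; funext u v; simp [mul_left_comm] }
  refine TS_map L (Rn k n) (fun σ => ?_) hτ
  have h1 := trw_mem_Rn (NN_relabel φ (absorb hk q σ))
  convert h1 using 1
  funext u v
  show Hf k (u ∘ φ ∘ Sum.inl) (v ∘ φ ∘ Sum.inl) * T σ (u ∘ φ ∘ Sum.inr) (v ∘ φ ∘ Sum.inr) =
    (TC σ (Euv u v ∘ φ)).trace
  unfold TC
  rw [Matrix.trace_smul, mul_comm]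
  have e1 : (Euv u v ∘ φ) ∘ Sum.inr = Euv (u ∘ φ ∘ Sum.inr) (v ∘ φ ∘ Sum.inr) := rfl
  rw [e1, Tm_Euv]
  rfl

end Pool.Agent.L0h61.AED
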