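import Mathlib
import Pool.Agent.L0h61.AED.Rn
import Pool.Agent.L0h61.AED.Avoid

/-!
The codimension of `Rn` in the space of all trace functions is exponentially small.
-/

set_option autoImplicit false

namespace Pool.Agent.L0h61.AED

open Module Matrix

variable {k : ℕ}

/-! ### The Capelli trace function is nonzero -/

lemma chain_prod (n : ℕ) : ∀ (x : Fin n → Mk k) (b : Fin n → Fin k) (c : Fin (n + 1) → Fin k)
    (q : Fin k),
    (List.ofFn fun i => x i * Matrix.single (b i) (c i.succ) (1 : ℝ)).prod (c 0) q =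
      (∏ i, x i (c i.castSucc) (b i)) * (if q = c (Fin.last n) then 1 else 0) := by
  induction n with
  | zero =>
    intro x b c q
    simp only [List.ofFn_zero, List.prod_nil, Matrix.one_apply, Finset.univ_eq_empty,
      Finset.prod_empty, one_mul]
    congr 1
    apply propext
    exact eq_comm
  | succ n ih =>
    intro x b c q
    rw [List.ofFn_succ, List.prod_cons]
    have h := ih (fun i => x i.succ) (fun i => b i.succ) (fun i => c i.succ) q
    have h1 : (x 0 * Matrix.single (b 0) (c (Fin.succ 0)) (1 : ℝ) *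
        (List.ofFn fun i : Fin n => x i.succ * Matrix.single (b i.succ) (c i.succ.succ) (1 : ℝ)).prod)
          (c 0) q = x 0 (c 0) (b 0) *
        (List.ofFn fun i : Fin n => x i.succ * Matrix.single (b i.succ) (c i.succ.succ) (1 : ℝ)).prod
          (c (Fin.succ 0)) q := by
      rw [Matrix.mul_assoc, Matrix.mul_apply, Finset.sum_eq_single (b 0)]
      · rw [Matrix.single_mul_apply_same, one_mul]
      · intro r _ hr
        rw [Matrix.single_mul_apply_of_ne _ _ _ _ _ hr, mul_zero]
      · intro h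
        exact absurd (Finset.mem_univ _) h
    rw [h1, h, Fin.prod_univ_succ, mul_assoc]
    rfl

lemma chain_trace (m : ℕ) (hm : 0 < m) (x : Fin m → Mk k) (a b : Fin m → Fin k) :
    ((List.ofFn fun i : Fin m => x i * Matrix.single (b i)
      (if h : (i : ℕ) + 1 < m then a ⟨(i : ℕ) + 1, h⟩ else a ⟨0, hm⟩) (1 : ℝ)).prod).trace =
      ∏ i, x i (a i) (b i) := by
  have key : ∀ p : Fin k, (List.ofFn fun i : Fin m => x i * Matrix.single (b i)
      (if h : (i : ℕ) + 1 < m then a ⟨(i : ℕ) + 1, h⟩ else a ⟨0, hm⟩) (1 : ℝ)).prod p p =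
      if p = a ⟨0, hm⟩ then ∏ i, x i (a i) (b i) else 0 := by
    intro p
    let c : Fin (m + 1) → Fin k := fun j => if (j : ℕ) = 0 then p else
      if h : (j : ℕ) < m then a ⟨j, h⟩ else a ⟨0, hm⟩
    have h1 := chain_prod m x b c p
    have h2 : ∀ i : Fin m, c i.succ =
        (if h : (i : ℕ) + 1 < m then a ⟨(i : ℕ) + 1, h⟩ else a ⟨0, hm⟩) := by
      intro i
      simp [c]
    have h3 : c 0 = p := by simp [c]
    have h4 : c (Fin.last m) = a ⟨0, hm⟩ := by
      simp only [c, Fin.val_last]
      rw [if_neg (by omega), dif_neg (by omega)]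
    simp_rw [h2] at h1
    rw [h3, h4] at h1
    rw [h1]
    split_ifs with h5
    · rw [mul_one]
      refine Finset.prod_congr rfl fun i _ => ?_
      congr 1
      simp only [c, Fin.val_castSucc]
      by_cases h6 : (i : ℕ) = 0
      · rw [if_pos h6, h5]
        congr 1
        exact Fin.ext h6.symm
      · rw [if_neg h6, dif_pos i.2]
    · rw [mul_zero]
  rw [Matrix.trace]
  simp only [Matrix.diag_apply, key]
  simp

lemma Hf_ne_zero (hk : 1 ≤ k) : ∃ u v, Hf k u v ≠ 0 := by
  have hm : 0 < k * k := by positivity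
  let a : Fin (k * k) → Fin k := fun i => (finProdFinEquiv.symm i).1
  let b : Fin (k * k) → Fin k := fun i => (finProdFinEquiv.symm i).2
  let c : Fin (k * k) → Fin k := fun i =>
    if h : (i : ℕ) + 1 < k * k then a ⟨(i : ℕ) + 1, h⟩ else a ⟨0, hm⟩
  refine ⟨Sum.elim b c, Sum.elim a b, ?_⟩
  have : Hf k (Sum.elim b c) (Sum.elim a b) = 1 := by
    show (cap _).trace = 1
    unfold cap
    rw [capA_apply, Matrix.trace_sum]
    have h1 : ∀ σ : Equiv.Perm (Fin (k * k)), ((Equiv.Perm.sign σ : ℤ) • (List.ofFn fun i =>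
        (Euv (Sum.elim b c) (Sum.elim a b) ∘ Sum.inl) (σ i) *
        (Euv (Sum.elim b c) (Sum.elim a b) ∘ Sum.inr) i).prod).trace =
        if σ = 1 then 1 else 0 := by
      intro σ
      rw [Matrix.trace_smul]
      have h2 := chain_trace (k * k) hm (fun i => Matrix.single (a (σ i)) (b (σ i)) (1 : ℝ)) a b
      have h3 : ((List.ofFn fun i =>
        (Euv (Sum.elim b c) (Sum.elim a b) ∘ Sum.inl) (σ i) *
        (Euv (Sum.elim b c) (Sum.elim a b) ∘ Sum.inr) i).prod).trace =
        ∏ i, (Matrix.single (a (σ i)) (b (σ i)) (1 : ℝ)) (a i) (b i) := h2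
      rw [h3]
      split_ifs with h4
      · subst h4
        simp
      · have : ∃ i, σ i ≠ i := by
          by_contra h5
          push Not at h5
          exact h4 (Equiv.ext h5)
        obtain ⟨i, hi⟩ := this
        rw [Finset.prod_eq_zero (Finset.mem_univ i), smul_zero]
        rw [Matrix.single_apply, if_neg]
        rintro ⟨h6, h7⟩
        apply hi
        apply finProdFinEquiv.symm.injective
        exact Prod.ext h6 h7
    rw [Finset.sum_congr rfl (fun σ _ => h1 σ)]
    simp
  rw [this]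
  exact one_ne_zero

/-! ### Contractions of functions orthogonal to `Rn` vanish -/

theorem contr_zero (hk : 1 ≤ k) {n q : ℕ} (φ : AV k ⊕ Fin q ≃ Option (Fin n))
    {p : (Option (Fin n) → Fin k) → (Option (Fin n) → Fin k) → ℝ}
    (hp : p ∈ TS k (Option (Fin n)) (Option (Fin n)))
    (horth : ∀ ρ ∈ Rn k n, ∑ u, ∑ v, p u v * ρ u v = 0) (u' v' : Fin q → Fin k) :
    ∑ z : (AV k → Fin k) × (AV k → Fin k),
      p (Sum.elim z.1 u' ∘ φ.symm) (Sum.elim z.2 v' ∘ φ.symm) * Hf k z.1 z.2 = 0 := by
  classical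
  let r : (Fin q → Fin k) → (Fin q → Fin k) → ℝ := fun u' v' =>
    ∑ z : (AV k → Fin k) × (AV k → Fin k),
      p (Sum.elim z.1 u' ∘ φ.symm) (Sum.elim z.2 v' ∘ φ.symm) * Hf k z.1 z.2
  have hr : r ∈ TS k (Fin q) (Fin q) := by
    have h1 := TS_relabel (φ.symm.trans (Equiv.sumComm _ _)) (φ.symm.trans (Equiv.sumComm _ _)) hp
    have h2 := TS_relabel (Equiv.sumEmpty (AV k) Empty).symm (Equiv.sumEmpty (AV k) Empty).symm
      (TS_trans (Hf_mem (k := k) hk))
    have h3 := TS_comp h1 h2
    have h4 := TS_relabel (Equiv.sumEmpty (Fin q) Empty) (Equiv.sumEmpty (Fin q) Empty) h3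
    convert h4 using 1
    funext u v
    show (∑ z : (AV k → Fin k) × (AV k → Fin k), _) = ∑ z : (AV k → Fin k) × (AV k → Fin k), _
    rw [← (Equiv.prodComm (AV k → Fin k) (AV k → Fin k)).sum_comp]
    refine Finset.sum_congr rfl fun z _ => ?_
    have e1 : ∀ (s : Fin q → Fin k) (t : AV k → Fin k),
        Sum.elim t s ∘ φ.symm = Sum.elim ((s ∘ Equiv.sumEmpty (Fin q) Empty) ∘ Sum.inl) t ∘
          (φ.symm.trans (Equiv.sumComm _ _)) := by
      intro s t
      funext j
      simp only [Function.comp, Equiv.trans_apply, Equiv.sumComm_apply]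
      rcases φ.symm j with x | x
      · rfl
      · rfl
    rw [e1, e1]
    rfl
  have hsq : ∑ u', ∑ v', r u' v' * r u' v' = 0 := by
    have h1 := horth _ (H_mul_mem_Rn hk φ hr)
    rw [← h1]
    -- reindex
    have eqv : ∀ F : (Option (Fin n) → Fin k) → (Option (Fin n) → Fin k) → ℝ,
        ∑ u, ∑ v, F u v = ∑ u' : Fin q → Fin k, ∑ v' : Fin q → Fin k,
          ∑ z : (AV k → Fin k) × (AV k → Fin k),
          F (Sum.elim z.1 u' ∘ φ.symm) (Sum.elim z.2 v' ∘ φ.symm) := by
      intro F
      let θ : (AV k → Fin k) × (Fin q → Fin k) ≃ (Option (Fin n) → Fin k) :=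
        (Equiv.sumArrowEquivProdArrow (AV k) (Fin q) (Fin k)).symm.trans
          (Equiv.arrowCongr φ (Equiv.refl _))
      have hθ : ∀ s t, θ (s, t) = Sum.elim s t ∘ φ.symm := fun s t => rfl
      rw [← θ.sum_comp, Fintype.sum_prod_type_right]
      refine Finset.sum_congr rfl fun u' _ => ?_
      have : ∀ s : AV k → Fin k, ∑ v, F (θ (s, u')) v =
          ∑ v' : Fin q → Fin k, ∑ t : AV k → Fin k, F (θ (s, u')) (θ (t, v')) := by
        intro s
        rw [← θ.sum_comp, Fintype.sum_prod_type_right]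
      rw [Finset.sum_congr rfl (fun s _ => this s), Finset.sum_comm]
      refine Finset.sum_congr rfl fun v' _ => ?_
      rw [Fintype.sum_prod_type]
      rfl
    rw [eqv]
    refine Finset.sum_congr rfl fun u' _ => Finset.sum_congr rfl fun v' _ => ?_
    have e2 : ∀ (s : AV k → Fin k) (t : Fin q → Fin k),
        (Sum.elim s t ∘ φ.symm) ∘ φ ∘ Sum.inl = s := by
      intro s t; funext x; simp
    have e3 : ∀ (s : AV k → Fin k) (t : Fin q → Fin k),
        (Sum.elim s t ∘ φ.symm) ∘ φ ∘ Sum.inr = t := by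
      intro s t; funext x; simp
    simp only [e2, e3]
    rw [show r u' v' * r u' v' = (∑ z : (AV k → Fin k) × (AV k → Fin k),
      p (Sum.elim z.1 u' ∘ φ.symm) (Sum.elim z.2 v' ∘ φ.symm) * Hf k z.1 z.2) * r u' v' from rfl,
      Finset.sum_mul]
    refine Finset.sum_congr rfl fun z _ => ?_
    ring
  have h1 := (Finset.sum_eq_zero_iff_of_nonneg (fun u _ =>
    Finset.sum_nonneg fun v _ => mul_self_nonneg (r u v))).mp hsq u' (Finset.mem_univ _)
  have h2 := (Finset.sum_eq_zero_iff_of_nonneg (fun v _ =>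
    mul_self_nonneg (r u' v))).mp h1 v' (Finset.mem_univ _)
  exact mul_self_eq_zero.mp h2

/-! ### The codimension bound -/

/-- the trace functions orthogonal to `Rn`. -/
noncomputable def K0 (k n : ℕ) :
    Submodule ℝ ((Option (Fin n) → Fin k) → (Option (Fin n) → Fin k) → ℝ) where
  carrier := {p | p ∈ TS k (Option (Fin n)) (Option (Fin n)) ∧
    ∀ ρ ∈ Rn k n, ∑ u, ∑ v, p u v * ρ u v = 0}
  add_mem' := by
    rintro p q ⟨h1, h2⟩ ⟨h3, h4⟩
    refine ⟨Submodule.add_mem _ h1 h3, fun ρ hρ => ?_⟩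
    have := h2 ρ hρ
    have := h4 ρ hρ
    simp only [Pi.add_apply, add_mul, Finset.sum_add_distrib]
    linarith
  zero_mem' := ⟨Submodule.zero_mem _, fun ρ _ => by simp⟩
  smul_mem' := by
    rintro c p ⟨h1, h2⟩
    refine ⟨Submodule.smul_mem _ _ h1, fun ρ hρ => ?_⟩
    have := h2 ρ hρ
    simp only [Pi.smul_apply, smul_eq_mul, mul_assoc, ← Finset.mul_sum]
    rw [this, mul_zero]

lemma finrank_le_K0 (n : ℕ) : tt k (n + 1) ≤ finrank ℝ (Rn k n) + finrank ℝ (K0 k n) := by
  have h0 : finrank ℝ (TS k (Option (Fin n)) (Option (Fin n))) = tt k (n + 1) :=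
    finrank_TS (by simp) (by simp)
  rw [← h0]
  let L : TS k (Option (Fin n)) (Option (Fin n)) →ₗ[ℝ] (Rn k n →ₗ[ℝ] ℝ) :=
    { toFun := fun p =>
        { toFun := fun ρ => ∑ u, ∑ v, p.1 u v * ρ.1 u v
          map_add' := by
            intro a b
            simp [mul_add, Finset.sum_add_distrib]
          map_smul' := by
            intro c a
            simp [mul_left_comm, Finset.mul_sum] }
      map_add' := by
        intro a b
        ext ρ
        simp [add_mul, Finset.sum_add_distrib]
      map_smul' := by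
        intro c a
        ext ρ
        simp [mul_assoc, Finset.mul_sum] }
  have h1 := LinearMap.finrank_range_add_finrank_ker L
  have h2 : finrank ℝ (LinearMap.range L) ≤ finrank ℝ (Rn k n) := by
    refine (Submodule.finrank_le _).trans ?_
    exact le_of_eq (Subspace.dual_finrank_eq)
  have h3 : finrank ℝ (LinearMap.ker L) ≤ finrank ℝ (K0 k n) := by
    let ι : LinearMap.ker L →ₗ[ℝ] K0 k n :=
      { toFun := fun p => ⟨p.1.1, p.1.2, fun ρ hρ =>
          LinearMap.congr_fun (LinearMap.mem_ker.mp p.2) ⟨ρ, hρ⟩⟩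
        map_add' := fun _ _ => rfl
        map_smul' := fun _ _ => rfl }
    refine LinearMap.finrank_le_finrank_of_injective (f := ι) ?_
    intro a b hab
    apply Subtype.ext
    apply Subtype.ext
    have : (ι a).1 = (ι b).1 := congrArg Subtype.val hab
    exact this
  omega

/-- decoding words -/
def dec {k : ℕ} {J J' : Type} (e : J → J') (w : J' → Fin (k * k)) :
    (J → Fin k) × (J → Fin k) :=
  (fun j => (finProdFinEquiv.symm (w (e j))).2, fun j => (finProdFinEquiv.symm (w (e j))).1)

theorem finrank_K0_le (hk : 2 ≤ k) (n : ℕ) :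
    finrank ℝ (K0 k n) ≤ (n + 1 + 1) ^ (k * k + k * k) * (k * k - 1) ^ (n + 1) := by
  classical
  let e : Option (Fin n) ≃ Fin (n + 1) := (finSuccEquiv n).symm
  have hcard : Fintype.card (AV k) = k * k + k * k := by simp
  let e' : AV k ≃ Fin (k * k + k * k) := Fintype.equivFinOfCardEq hcard
  let Ω : ((Option (Fin n) → Fin k) → (Option (Fin n) → Fin k) → ℝ) →ₗ[ℝ]
      ((Fin (n + 1) → Fin (k * k)) → ℝ) :=
    { toFun := fun p w => p (dec e w).1 (dec e w).2
      map_add' := fun _ _ => rfl
      map_smul' := fun _ _ => rfl }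
  have hΩ : Function.Injective Ω := by
    intro p q hpq
    funext u v
    have h := congrFun hpq (fun j => finProdFinEquiv (v (e.symm j), u (e.symm j)))
    have e1 : (dec e (fun j => finProdFinEquiv (v (e.symm j), u (e.symm j)))) = (u, v) := by
      unfold dec
      simp
    have h' : p (dec e (fun j => finProdFinEquiv (v (e.symm j), u (e.symm j)))).1
      (dec e (fun j => finProdFinEquiv (v (e.symm j), u (e.symm j)))).2 =
      q (dec e (fun j => finProdFinEquiv (v (e.symm j), u (e.symm j)))).1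
      (dec e (fun j => finProdFinEquiv (v (e.symm j), u (e.symm j)))).2 := h
    rw [e1] at h'
    exact h'
  have h1 : finrank ℝ (K0 k n) = finrank ℝ ((K0 k n).map Ω) :=
    (Submodule.equivMapOfInjective Ω hΩ _).finrank_eq
  rw [h1]
  have h2 := avoid_bound (κ := Fin (k * k)) (k * k + k * k) (n + 1)
    (fun z => Hf k (dec e' z).1 (dec e' z).2) ?_ ?_ ((K0 k n).map Ω) ?_
  · rw [Fintype.card_fin] at h2
    exact h2
  · obtain ⟨u, v, huv⟩ := Hf_ne_zero (k := k) (by omega)
    refine ⟨fun j => finProdFinEquiv (v (e'.symm j), u (e'.symm j)), ?_⟩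
    have e1 : (dec e' (fun j => finProdFinEquiv (v (e'.symm j), u (e'.symm j)))) = (u, v) := by
      unfold dec
      simp
    simp only [e1]
    exact huv
  · rw [Fintype.card_fin]
    nlinarith
  · rintro _ ⟨p, ⟨hp1, hp2⟩, rfl⟩ φ y
    let φ' : AV k ⊕ Fin (n + 1 - (k * k + k * k)) ≃ Option (Fin n) :=
      ((Equiv.sumCongr e' (Equiv.refl _)).trans φ).trans e.symm
    have h3 := contr_zero (k := k) (by omega) φ' hp1 hp2
      (fun b => (finProdFinEquiv.symm (y b)).2) (fun b => (finProdFinEquiv.symm (y b)).1)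
    rw [← h3]
    let Θ : (Fin (k * k + k * k) → Fin (k * k)) ≃ (AV k → Fin k) × (AV k → Fin k) :=
      { toFun := fun z => dec e' z
        invFun := fun uv j => finProdFinEquiv (uv.2 (e'.symm j), uv.1 (e'.symm j))
        left_inv := by
          intro z
          funext j
          show finProdFinEquiv ((finProdFinEquiv.symm (z (e' (e'.symm j)))).1,
            (finProdFinEquiv.symm (z (e' (e'.symm j)))).2) = z j
          rw [Equiv.apply_symm_apply, Equiv.apply_symm_apply]
        right_inv := by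
          intro uv
          simp [dec] }
    rw [← Θ.sum_comp]
    refine Finset.sum_congr rfl fun z _ => ?_
    show p (dec e (Sum.elim z y ∘ φ.symm)).1 (dec e (Sum.elim z y ∘ φ.symm)).2 * _ =
      p (Sum.elim (dec e' z).1 _ ∘ φ'.symm) (Sum.elim (dec e' z).2 _ ∘ φ'.symm) * _
    congr 1
    have e1 : (dec e (Sum.elim z y ∘ φ.symm)).1 =
        Sum.elim (dec e' z).1 (fun b => (finProdFinEquiv.symm (y b)).2) ∘ φ'.symm := by
      funext j
      simp only [dec, Function.comp, φ', Equiv.symm_trans_apply, Equiv.symm_symm]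
      rcases φ.symm (e j) with x | x
      · simp
      · simp
    have e2 : (dec e (Sum.elim z y ∘ φ.symm)).2 =
        Sum.elim (dec e' z).2 (fun b => (finProdFinEquiv.symm (y b)).1) ∘ φ'.symm := by
      funext j
      simp only [dec, Function.comp, φ', Equiv.symm_trans_apply, Equiv.symm_symm]
      rcases φ.symm (e j) with x | x
      · simp
      · simp
    rw [e1, e2]

theorem codim_bound (hk : 2 ≤ k) (n : ℕ) :
    tt k (n + 1) ≤ finrank ℝ (Rn k n) +
      (n + 1 + 1) ^ (k * k + k * k) * (k * k - 1) ^ (n + 1) :=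
  (finrank_le_K0 n).trans (Nat.add_le_add_left (finrank_K0_le hk n) _)

end Pool.Agent.L0h61.AED
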