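import Mathlib
import Pool.Agent.L0h61.AED.Codim
import Pool.Agent.L0h61.AED.Analysis

/-!
The ratio limit over the reals.
-/

set_option autoImplicit false

namespace Pool.Agent.L0h61.AED

open Module Matrix Filter Topology

variable {k : ℕ}

/-- elements of `SS` are multilinear -/
lemma SS_multilinear {n : ℕ} {g : (Fin n → Mk k) → Mk k} (hg : g ∈ SS k n) :
    ∃ G : MultilinearMap ℝ (fun _ : Fin n => Mk k) (Mk k), ∀ x, G x = g x := by
  unfold SS at hg
  induction hg using Submodule.span_induction with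
  | mem g hg =>
    obtain ⟨σ, rfl⟩ := hg
    exact ⟨(MultilinearMap.mkPiAlgebraFin ℝ n (Mk k)).domDomCongr σ, fun x => by
      rw [MultilinearMap.domDomCongr_apply, MultilinearMap.mkPiAlgebraFin_apply]⟩
  | zero => exact ⟨0, fun _ => rfl⟩
  | add g h _ _ ih1 ih2 =>
    obtain ⟨G, hG⟩ := ih1
    obtain ⟨H, hH⟩ := ih2
    exact ⟨G + H, fun x => by simp [hG, hH]⟩
  | smul c g _ ih =>
    obtain ⟨G, hG⟩ := ih
    exact ⟨c • G, fun x => by simp [hG]⟩

lemma multi_ext {n : ℕ} {F G : MultilinearMap ℝ (fun _ : Fin n => Mk k) (Mk k)}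
    (h : ∀ u v : Fin n → Fin k, F (Euv u v) = G (Euv u v)) : F = G := by
  refine Basis.ext_multilinear (fun _ => Matrix.stdBasis ℝ (Fin k) (Fin k)) fun w => ?_
  have := h (fun i => (w i).2) (fun i => (w i).1)
  have e : (fun i => (Matrix.stdBasis ℝ (Fin k) (Fin k)) (w i)) =
      Euv (fun i => (w i).2) (fun i => (w i).1) := by
    funext i
    exact Matrix.stdBasis_eq_single ℝ (w i).1 (w i).2
  rw [e]
  exact this

lemma rho_val {n : ℕ} (g : (Fin n → Mk k) → Mk k) (u v : Fin n → Fin k) (a b : Fin k) :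
    rho k n g (ext a u) (ext b v) = g (Euv u v) a b := rfl

lemma rho_inj {n : ℕ} {g : (Fin n → Mk k) → Mk k} (hg : g ∈ SS k n) (h : rho k n g = 0) :
    g = 0 := by
  obtain ⟨G, hG⟩ := SS_multilinear hg
  have : G = 0 := by
    refine multi_ext fun u v => ?_
    rw [hG]
    ext a b
    rw [← rho_val g u v a b, h]
    rfl
  funext x
  rw [← hG x, this]
  rfl

lemma finrank_Rn (n : ℕ) : finrank ℝ (Rn k n) = finrank ℝ (SS k n) := by
  have : Rn k n = LinearMap.range ((rho k n).domRestrict (SS k n)) := by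
    rw [LinearMap.range_domRestrict]
    rfl
  rw [this]
  apply LinearMap.finrank_range_of_inj
  rw [← LinearMap.ker_eq_bot, LinearMap.ker_eq_bot']
  intro g hg
  apply Subtype.ext
  exact rho_inj g.2 hg

/-- central polynomial functions -/
noncomputable def DD (k n : ℕ) : Submodule ℝ ((Fin n → Mk k) → Mk k) where
  carrier := {g | g ∈ SS k n ∧ ∀ x, g x ∈ Subalgebra.center ℝ (Mk k)}
  add_mem' h1 h2 := ⟨Submodule.add_mem _ h1.1 h2.1, fun x => Subalgebra.add_mem _ (h1.2 x) (h2.2 x)⟩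
  zero_mem' := ⟨Submodule.zero_mem _, fun x => Subalgebra.zero_mem _⟩
  smul_mem' c _ h := ⟨Submodule.smul_mem _ c h.1, fun x => Subalgebra.smul_mem _ (h.2 x) c⟩

instance fin_SS (n : ℕ) : Module.Finite ℝ (SS k n) := by
  unfold SS
  exact Module.Finite.span_of_finite ℝ (Set.finite_range _)

lemma DD_le (n : ℕ) : DD k n ≤ SS k n := fun _ h => h.1

instance fin_DD (n : ℕ) : Module.Finite ℝ (DD k n) :=
  Module.Finite.of_injective (Submodule.inclusion (DD_le n)) (Submodule.inclusion_injective _)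

lemma center_scalar {M : Mk k} (h : M ∈ Subalgebra.center ℝ (Mk k)) :
    ∃ c : ℝ, M = c • (1 : Mk k) := by
  rw [Subalgebra.mem_center_iff] at h
  obtain ⟨c, hc⟩ := Matrix.mem_range_scalar_of_commute_single (M := M) (fun i j _ => h _)
  refine ⟨c, ?_⟩
  rw [← hc]
  ext i j
  simp [Matrix.scalar_apply, Matrix.diagonal_apply, Matrix.one_apply]

lemma finrank_DD_le (hk : 1 ≤ k) (n : ℕ) : finrank ℝ (DD k n) ≤ tt k n := by
  have hk0 : (k : ℝ) ≠ 0 := by
    have : 0 < k := hk
    positivity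
  unfold tt
  let L : DD k n →ₗ[ℝ] TS k (Fin n) (Fin n) :=
    { toFun := fun g => ⟨fun u v => ∑ r : Fin k, rho k n g.1 (ext r u) (ext r v),
        TS_contract (Rn_le_TS n ⟨g.1, g.2.1, rfl⟩)⟩
      map_add' := by
        intro g h
        apply Subtype.ext
        funext u v
        simp [Finset.sum_add_distrib]
      map_smul' := by
        intro c g
        apply Subtype.ext
        funext u v
        simp [Finset.mul_sum] }
  refine LinearMap.finrank_le_finrank_of_injective (f := L) ?_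
  rw [← LinearMap.ker_eq_bot, LinearMap.ker_eq_bot']
  intro g hg
  apply Subtype.ext
  refine rho_inj g.2.1 ?_
  funext u' v'
  set u := u' ∘ some with hu
  set v := v' ∘ some with hv
  have h1 : ∑ r : Fin k, g.1 (Euv u v) r r = 0 :=
    congrFun (congrFun (congrArg Subtype.val hg) u) v
  obtain ⟨c, hc⟩ := center_scalar (g.2.2 (Euv u v))
  rw [hc] at h1
  simp only [Matrix.smul_apply, Matrix.one_apply_eq, smul_eq_mul, mul_one, Finset.sum_const,
    Finset.card_univ, Fintype.card_fin, nsmul_eq_mul] at h1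
  have hc0 : c = 0 := (mul_eq_zero.mp h1).resolve_left hk0
  show g.1 (Euv u v) (u' none) (v' none) = 0
  rw [hc, hc0, zero_smul]
  rfl

/-- multiplication by the trace of the extra variable -/
noncomputable def JL (k n : ℕ) : ((Fin n → Fin k) → (Fin n → Fin k) → ℝ) →ₗ[ℝ]
    ((Option (Fin n) → Fin k) → (Option (Fin n) → Fin k) → ℝ) where
  toFun p := fun u v => (if u none = v none then 1 else 0) * p (u ∘ some) (v ∘ some)
  map_add' _ _ := by funext u v; simp [mul_add]
  map_smul' _ _ := by funext u v; simp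

lemma JL_inj (hk : 1 ≤ k) (n : ℕ) : Function.Injective (JL k n) := by
  intro p q h
  funext u v
  have := congrFun (congrFun h (ext ⟨0, hk⟩ u)) (ext ⟨0, hk⟩ v)
  simp only [JL, LinearMap.coe_mk, AddHom.coe_mk, ext_none, if_true, one_mul] at this
  exact this

lemma JL_mem {n : ℕ} {p : (Fin n → Fin k) → (Fin n → Fin k) → ℝ}
    (hp : p ∈ TS k (Fin n) (Fin n)) : JL k n p ∈ TS k (Option (Fin n)) (Option (Fin n)) := by
  classical
  refine TS_map (JL k n) _ (fun σ => ?_) hp
  convert T_mem (k := k) (Equiv.optionCongr σ) using 1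
  funext u v
  simp only [JL, LinearMap.coe_mk, AddHom.coe_mk]
  rw [T_apply, T_apply, ite_zero_mul_ite_zero, one_mul]
  congr 1
  apply propext
  constructor
  · rintro ⟨h1, h2⟩
    funext x
    rcases x with _ | x
    · exact h1
    · exact congrFun h2 x
  · intro h
    exact ⟨congrFun h none, funext fun x => congrFun h (some x)⟩

lemma JL_rho {n : ℕ} {g : (Fin n → Mk k) → Mk k} (hg : g ∈ SS k n)
    {p : (Fin n → Fin k) → (Fin n → Fin k) → ℝ} (h : JL k n p = rho k n g) : g ∈ DD k n := by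
  refine ⟨hg, ?_⟩
  obtain ⟨G, hG⟩ := SS_multilinear hg
  intro x
  rw [Subalgebra.mem_center_iff]
  intro b
  have key : (LinearMap.mulLeft ℝ b).compMultilinearMap G =
      (LinearMap.mulRight ℝ b).compMultilinearMap G := by
    refine multi_ext fun u v => ?_
    simp only [LinearMap.compMultilinearMap_apply, LinearMap.mulLeft_apply,
      LinearMap.mulRight_apply, hG]
    have h1 : g (Euv u v) = p u v • (1 : Mk k) := by
      ext a c
      rw [← rho_val g u v a c, ← h]
      simp only [JL, LinearMap.coe_mk, AddHom.coe_mk, ext_none]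
      show _ * p u v = _
      rw [Matrix.smul_apply, Matrix.one_apply, smul_eq_mul, mul_comm]
      rfl
    rw [h1]
    simp
  have h2 := congrArg (fun F : MultilinearMap ℝ (fun _ : Fin n => Mk k) (Mk k) => F x) key
  simp only [LinearMap.compMultilinearMap_apply, LinearMap.mulLeft_apply,
      LinearMap.mulRight_apply, hG] at h2
  exact h2

theorem dims_ineq (hk : 1 ≤ k) (n : ℕ) :
    tt k n + finrank ℝ (Rn k n) ≤ tt k (n + 1) + finrank ℝ (DD k n) := by
  have h0 : finrank ℝ (TS k (Option (Fin n)) (Option (Fin n))) = tt k (n + 1) :=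
    finrank_TS (by simp) (by simp)
  have h1 : finrank ℝ ((TS k (Fin n) (Fin n)).map (JL k n)) = tt k n :=
    (Submodule.equivMapOfInjective (JL k n) (JL_inj hk n) _).finrank_eq.symm
  have h2 := Submodule.finrank_sup_add_finrank_inf_eq ((TS k (Fin n) (Fin n)).map (JL k n))
    (Rn k n)
  have h3 : (TS k (Fin n) (Fin n)).map (JL k n) ⊔ Rn k n ≤
      TS k (Option (Fin n)) (Option (Fin n)) := by
    refine sup_le ?_ (Rn_le_TS n)
    rintro _ ⟨p, hp, rfl⟩
    exact JL_mem hp
  have h4 := Submodule.finrank_mono h3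
  have h5 : (TS k (Fin n) (Fin n)).map (JL k n) ⊓ Rn k n ≤ (DD k n).map (rho k n) := by
    rintro f ⟨⟨p, hp, h6⟩, ⟨g, hg, h7⟩⟩
    exact ⟨g, JL_rho hg (h6.trans h7.symm), h7⟩
  have h6 := Submodule.finrank_mono h5
  have h7 : finrank ℝ ((DD k n).map (rho k n)) ≤ finrank ℝ (DD k n) :=
    Submodule.finrank_map_le _ _
  omega

theorem tt_ratio (hk : 1 ≤ k) :
    Tendsto (fun n => (tt k (n + 1) : ℝ) / tt k n) atTop (𝓝 ((k : ℝ) ^ 2)) := by
  have hk0 : (0 : ℝ) < k := by exact_mod_cast hk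
  refine ratio_limit (fun n => (tt k n : ℝ)) ((k : ℝ) ^ 2) (by positivity) ?_ ?_ ?_ (k ^ 2) ?_
  · intro n
    exact_mod_cast tt_pos hk n
  · intro n
    exact_mod_cast tt_logconvex hk
  · intro n
    exact_mod_cast tt_le k n
  · intro n
    exact_mod_cast tt_growth k n

/-- the error term is negligible -/
theorem err_limit (hk : 2 ≤ k) :
    Tendsto (fun n : ℕ => (((n + 1 + 1) ^ (k * k + k * k) * (k * k - 1) ^ (n + 1) : ℕ) : ℝ) /
      (tt k (n + 1) : ℝ)) atTop (𝓝 0) := by
  have hm : (2 : ℝ) ≤ k := by exact_mod_cast hk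
  have hkk : (4 : ℝ) ≤ (k : ℝ) * k := by nlinarith
  set d := k * k + k * k + k ^ 2 with hd
  set q : ℝ := ((k : ℝ) * k - 1) / (k * k) with hq
  have hq0 : 0 ≤ q := div_nonneg (by linarith) (by linarith)
  have hq1 : q < 1 := by
    rw [hq, div_lt_one (by linarith)]
    linarith
  have hz := tendsto_pow_const_mul_const_pow_of_abs_lt_one d (r := q)
      (by rw [abs_of_nonneg hq0]; exact hq1)
  have hz2 := hz.comp (tendsto_add_atTop_nat 2)
  have hz3 := hz2.const_mul (q⁻¹)
  rw [mul_zero] at hz3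
  refine squeeze_zero (fun n => by positivity) (fun n => ?_) hz3
  have hcast : (((k * k - 1 : ℕ)) : ℝ) = (k : ℝ) * k - 1 := by
    have : 1 ≤ k * k := by nlinarith
    push_cast [Nat.cast_sub this]
    ring
  have hpos : (0 : ℝ) < tt k (n + 1) := by exact_mod_cast tt_pos (by omega) (n + 1)
  have hgr : ((k : ℝ) * k) ^ (n + 1) ≤ tt k (n + 1) * ((n : ℝ) + 2) ^ (k ^ 2) := by
    have := tt_growth k (n + 1)
    have h2 : (((k ^ 2) ^ (n + 1) : ℕ) : ℝ) ≤ ((tt k (n + 1) * (n + 1 + 1) ^ (k ^ 2) : ℕ) : ℝ) := by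
      exact_mod_cast this
    push_cast at h2
    rw [show (n : ℝ) + 1 + 1 = n + 2 by ring, pow_two] at h2
    exact h2
  have hqne : q ≠ 0 := by
    rw [hq]
    apply div_ne_zero <;> linarith
  rw [div_le_iff₀ hpos]
  push_cast
  rw [hcast]
  have e1 : ((k : ℝ) * k - 1) ^ (n + 1) = q ^ (n + 1) * ((k : ℝ) * k) ^ (n + 1) := by
    rw [hq, div_pow]
    field_simp
  have e2 : q⁻¹ * (((n : ℝ) + 2) ^ d * q ^ (n + 2)) = ((n : ℝ) + 2) ^ d * q ^ (n + 1) := by
    rw [pow_succ q (n + 1)]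
    field_simp
  simp only [Function.comp]
  push_cast
  rw [e2, e1, hd, pow_add _ (k * k + k * k) (k ^ 2), show (n : ℝ) + 1 + 1 = n + 2 by ring]
  calc ((n : ℝ) + 2) ^ (k * k + k * k) * (q ^ (n + 1) * ((k : ℝ) * k) ^ (n + 1))
      ≤ ((n : ℝ) + 2) ^ (k * k + k * k) * (q ^ (n + 1) *
        (tt k (n + 1) * ((n : ℝ) + 2) ^ (k ^ 2))) := by gcongr
    _ = _ := by ring

theorem main_real (hk : 2 ≤ k) :
    Tendsto (fun n : ℕ => ((finrank ℝ (SS k n) : ℝ) - finrank ℝ (DD k n)) /
      (finrank ℝ (SS k n) : ℝ)) atTop (𝓝 (1 - 1 / (k : ℝ) ^ 2)) := by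
  have hk1 : 1 ≤ k := by omega
  have hk0 : (0 : ℝ) < k := by exact_mod_cast hk1
  refine final_squeeze (fun n => (tt k n : ℝ)) (fun n => (finrank ℝ (SS k n) : ℝ))
    (fun n => (finrank ℝ (DD k n) : ℝ))
    (fun n => (((n + 1 + 1) ^ (k * k + k * k) * (k * k - 1) ^ (n + 1) : ℕ) : ℝ))
    ((k : ℝ) ^ 2) (by positivity) (fun n => by exact_mod_cast tt_pos hk1 n) (tt_ratio hk1)
    (err_limit hk) ?_ ?_ ?_ ?_
  · intro n
    have h0 : finrank ℝ (TS k (Option (Fin n)) (Option (Fin n))) = tt k (n + 1) :=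
      finrank_TS (by simp) (by simp)
    have h1 := Submodule.finrank_mono (Rn_le_TS (k := k) n)
    rw [h0, finrank_Rn] at h1
    exact_mod_cast h1
  · intro n
    have h1 := codim_bound hk n
    rw [finrank_Rn] at h1
    exact_mod_cast h1
  · intro n
    exact_mod_cast finrank_DD_le hk1 n
  · intro n
    have h1 := dims_ineq hk1 n
    rw [finrank_Rn] at h1
    exact_mod_cast h1

end Pool.Agent.L0h61.AED
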