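import Mathlib

/-!
Independence of the two codimension sequences of the ground field.
-/

set_option autoImplicit false

namespace Pool.Agent.L0h61.AED

open Module Matrix

section BaseChange

variable (K : Type) [Field K] [CharZero K]

/-- entrywise cast -/
def castV {I : Type} (f : I → ℚ) : I → K := fun i => algebraMap ℚ K (f i)

lemma li_cast {I ι : Type} [Fintype ι] (b : ι → (I → ℚ)) (h : LinearIndependent ℚ b) :
    LinearIndependent K (fun j => castV K (b j)) := by
  rw [Fintype.linearIndependent_iff] at h ⊢
  intro c hc j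
  rw [← Module.forall_dual_apply_eq_zero_iff ℚ (c j)]
  intro l
  refine h (fun j => l (c j)) ?_ j
  funext i
  have h1 := congrFun hc i
  rw [Finset.sum_apply] at h1
  rw [Finset.sum_apply]
  have h2 := congrArg l h1
  rw [map_sum] at h2
  rw [show (0 : I → ℚ) i = 0 from rfl]
  rw [show l ((0 : I → K) i) = 0 from map_zero l] at h2
  rw [← h2]
  refine Finset.sum_congr rfl fun j _ => ?_
  simp only [Pi.smul_apply, smul_eq_mul, castV]
  rw [mul_comm (c j), ← Algebra.smul_def, map_smul, smul_eq_mul, mul_comm]

lemma castV_mem_span {I : Type} (s : Set (I → ℚ)) {f : I → ℚ} (hf : f ∈ Submodule.span ℚ s) :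
    castV K f ∈ Submodule.span K (castV K '' s) := by
  induction hf using Submodule.span_induction with
  | mem f hf => exact Submodule.subset_span ⟨f, hf, rfl⟩
  | zero =>
    convert Submodule.zero_mem _ using 1
    funext i
    simp [castV]
  | add f g _ _ ih1 ih2 =>
    convert Submodule.add_mem _ ih1 ih2 using 1
    funext i
    simp [castV]
  | smul c f _ ih =>
    convert Submodule.smul_mem _ (algebraMap ℚ K c) ih using 1
    funext i
    simp [castV]

theorem finrank_cast {I S : Type} [Finite I] (v : S → (I → ℚ)) :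
    finrank K (Submodule.span K (Set.range (fun s => castV K (v s)))) =
      finrank ℚ (Submodule.span ℚ (Set.range v)) := by
  classical
  obtain ⟨b, hbs, hspan, hli⟩ := exists_linearIndependent ℚ (Set.range v)
  haveI : Fintype I := Fintype.ofFinite I
  haveI : Finite b := hli.setFinite
  haveI : Fintype b := Fintype.ofFinite b
  have h1 : finrank ℚ (Submodule.span ℚ (Set.range v)) = Fintype.card b := by
    rw [← hspan]
    have := finrank_span_eq_card hli
    rw [← this]
    congr 2
    all_goals simp
  have h2 : LinearIndependent K (fun j : b => castV K (j : I → ℚ)) := li_cast K _ hli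
  have h3 := finrank_span_eq_card h2
  rw [h1, ← h3]
  have h4 : Submodule.span K (Set.range (fun s => castV K (v s))) =
      Submodule.span K (Set.range (fun j : b => castV K (j : I → ℚ))) := by
    apply le_antisymm
    · rw [Submodule.span_le]
      rintro _ ⟨s, rfl⟩
      have h5 : v s ∈ Submodule.span ℚ b := by
        rw [hspan]
        exact Submodule.subset_span ⟨s, rfl⟩
      have h6 := castV_mem_span K b h5
      have h7 : castV K '' b = Set.range (fun j : b => castV K (j : I → ℚ)) := by
        rw [Set.image_eq_range]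
      rw [← h7]
      exact h6
    · rw [Submodule.span_le]
      rintro _ ⟨j, rfl⟩
      obtain ⟨s, hs⟩ := hbs j.2
      exact Submodule.subset_span ⟨s, by simp only [hs]⟩
  rw [h4]

end BaseChange

section Words

variable (K : Type) [Field K] (k n : ℕ)

/-- matrix units of a word over `K` -/
def EwK (w : Fin n → Fin k × Fin k) : Fin n → Matrix (Fin k) (Fin k) K :=
  fun a => Matrix.single (w a).1 (w a).2 1

/-- the monomial function -/
def XK (σ : Equiv.Perm (Fin n)) (x : Fin n → Matrix (Fin k) (Fin k) K) :
    Matrix (Fin k) (Fin k) K := (List.ofFn (fun i => x (σ i))).prod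

/-- word-level coordinates of the monomials -/
def xw (σ : Equiv.Perm (Fin n)) : (Fin n → Fin k × Fin k) × (Fin k × Fin k) → K :=
  fun wp => XK K k n σ (EwK K k n wp.1) wp.2.1 wp.2.2

/-- word-level coordinates of the monomials modulo scalars -/
def zw (z : Fin k) (σ : Equiv.Perm (Fin n)) :
    (Fin n → Fin k × Fin k) × (Fin k × Fin k) → K :=
  fun wp => XK K k n σ (EwK K k n wp.1) wp.2.1 wp.2.2 -
    if wp.2.1 = wp.2.2 then XK K k n σ (EwK K k n wp.1) z z else 0

lemma finrank_comp_inj {V V' S : Type} [AddCommGroup V] [Module K V] [AddCommGroup V']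
    [Module K V'] (f : V →ₗ[K] V') (v : S → V)
    (hf : ∀ g ∈ Submodule.span K (Set.range v), f g = 0 → g = 0) :
    finrank K (Submodule.span K (Set.range (fun s => f (v s)))) =
      finrank K (Submodule.span K (Set.range v)) := by
  have h1 : Submodule.span K (Set.range (fun s => f (v s))) =
      LinearMap.range (f.domRestrict (Submodule.span K (Set.range v))) := by
    rw [LinearMap.range_domRestrict, Submodule.map_span, ← Set.range_comp]
    rfl
  rw [h1]
  apply LinearMap.finrank_range_of_inj
  rw [← LinearMap.ker_eq_bot, LinearMap.ker_eq_bot']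
  intro g hg
  apply Subtype.ext
  exact hf g.1 g.2 hg

variable {K k n}

lemma multilin {W : Type} [AddCommGroup W] [Module K W] (L : Matrix (Fin k) (Fin k) K →ₗ[K] W)
    {g : (Fin n → Matrix (Fin k) (Fin k) K) → W}
    (hg : g ∈ Submodule.span K (Set.range (fun σ : Equiv.Perm (Fin n) =>
      fun x : Fin n → Matrix (Fin k) (Fin k) K => L (XK K k n σ x)))) :
    ∃ G : MultilinearMap K (fun _ : Fin n => Matrix (Fin k) (Fin k) K) W, ∀ x, G x = g x := by
  induction hg using Submodule.span_induction with
  | mem g hg =>
    obtain ⟨σ, rfl⟩ := hg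
    exact ⟨L.compMultilinearMap ((MultilinearMap.mkPiAlgebraFin K n
      (Matrix (Fin k) (Fin k) K)).domDomCongr σ), fun x => by
      rw [LinearMap.compMultilinearMap_apply, MultilinearMap.domDomCongr_apply,
        MultilinearMap.mkPiAlgebraFin_apply]
      rfl⟩
  | zero => exact ⟨0, fun _ => rfl⟩
  | add g h _ _ ih1 ih2 =>
    obtain ⟨G, hG⟩ := ih1
    obtain ⟨H, hH⟩ := ih2
    exact ⟨G + H, fun x => by simp [hG, hH]⟩
  | smul c g _ ih =>
    obtain ⟨G, hG⟩ := ih
    exact ⟨c • G, fun x => by simp [hG]⟩

/-- evaluation at words followed by coordinates -/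
def evL {W : Type} [AddCommGroup W] [Module K W] (ι : W →ₗ[K] (Fin k × Fin k → K)) :
    ((Fin n → Matrix (Fin k) (Fin k) K) → W) →ₗ[K]
      ((Fin n → Fin k × Fin k) × (Fin k × Fin k) → K) where
  toFun g := fun wp => ι (g (EwK K k n wp.1)) wp.2
  map_add' g h := by funext wp; simp
  map_smul' c g := by funext wp; simp

lemma finrank_words {W : Type} [AddCommGroup W] [Module K W]
    (L : Matrix (Fin k) (Fin k) K →ₗ[K] W) (ι : W →ₗ[K] (Fin k × Fin k → K))
    (hι : Function.Injective ι) :
    finrank K (Submodule.span K (Set.range (fun σ : Equiv.Perm (Fin n) =>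
      fun x : Fin n → Matrix (Fin k) (Fin k) K => L (XK K k n σ x)))) =
    finrank K (Submodule.span K (Set.range (fun σ : Equiv.Perm (Fin n) =>
      fun wp : (Fin n → Fin k × Fin k) × (Fin k × Fin k) =>
        ι (L (XK K k n σ (EwK K k n wp.1))) wp.2))) := by
  symm
  refine finrank_comp_inj K (evL ι) (fun σ : Equiv.Perm (Fin n) =>
      fun x : Fin n → Matrix (Fin k) (Fin k) K => L (XK K k n σ x)) ?_
  intro g hg h0
  obtain ⟨G, hG⟩ := multilin L hg
  have : G = 0 := by
    refine Basis.ext_multilinear (fun _ => Matrix.stdBasis K (Fin k) (Fin k)) fun w => ?_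
    have e : (fun i => (Matrix.stdBasis K (Fin k) (Fin k)) (w i)) = EwK K k n w := by
      funext i
      exact Matrix.stdBasis_eq_single K (w i).1 (w i).2
    rw [e, hG]
    apply hι
    rw [show (0 : MultilinearMap K (fun _ : Fin n => Matrix (Fin k) (Fin k) K) W)
      (EwK K k n w) = 0 from rfl, map_zero]
    funext p
    exact congrFun h0 (w, p)
  funext x
  rw [← hG x, this]
  rfl

end Words

section Final

variable (K : Type) [Field K] [CharZero K] (k n : ℕ)

lemma XK_cast (σ : Equiv.Perm (Fin n)) (w : Fin n → Fin k × Fin k) :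
    XK K k n σ (EwK K k n w) = (XK ℚ k n σ (EwK ℚ k n w)).map (algebraMap ℚ K) := by
  unfold XK
  have h1 : ((List.ofFn fun i => EwK ℚ k n w (σ i)).prod).map (algebraMap ℚ K) =
      (algebraMap ℚ K).mapMatrix (List.ofFn fun i => EwK ℚ k n w (σ i)).prod := rfl
  rw [h1, map_list_prod, List.map_ofFn]
  congr 2
  funext i
  simp only [Function.comp, EwK, RingHom.mapMatrix_apply]
  ext a b
  simp only [Matrix.map_apply, Matrix.single_apply]
  split_ifs <;> simp

theorem finrank_xw : finrank K (Submodule.span K (Set.range (xw K k n))) =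
    finrank ℚ (Submodule.span ℚ (Set.range (xw ℚ k n))) := by
  rw [← finrank_cast K (xw ℚ k n)]
  have key : xw K k n = fun σ => castV K (xw ℚ k n σ) := by
    funext σ wp
    show XK K k n σ (EwK K k n wp.1) wp.2.1 wp.2.2 = _
    rw [XK_cast]
    rfl
  rw [key]

theorem finrank_zw (z : Fin k) : finrank K (Submodule.span K (Set.range (zw K k n z))) =
    finrank ℚ (Submodule.span ℚ (Set.range (zw ℚ k n z))) := by
  rw [← finrank_cast K (zw ℚ k n z)]
  have key : zw K k n z = fun σ => castV K (zw ℚ k n z σ) := by
    funext σ wp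
    show XK K k n σ (EwK K k n wp.1) wp.2.1 wp.2.2 - (if wp.2.1 = wp.2.2 then
      XK K k n σ (EwK K k n wp.1) z z else 0) = algebraMap ℚ K (_ - _)
    rw [XK_cast, map_sub]
    congr 1
    split_ifs
    · rfl
    · simp
  rw [key]

/-- ordinary codimension -/
noncomputable def cn : ℕ := finrank K (Submodule.span K (Set.range (fun σ : Equiv.Perm (Fin n) =>
  fun x : Fin n → Matrix (Fin k) (Fin k) K => (List.ofFn (fun i => x (σ i))).prod)))

/-- central codimension -/
noncomputable def czn : ℕ := finrank K (Submodule.span K (Set.range (fun σ : Equiv.Perm (Fin n) =>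
  fun x : Fin n → Matrix (Fin k) (Fin k) K =>
    Submodule.mkQ (Subalgebra.toSubmodule (Subalgebra.center K (Matrix (Fin k) (Fin k) K)))
      (List.ofFn (fun i => x (σ i))).prod)))

/-- coordinates of a matrix -/
def coordL : Matrix (Fin k) (Fin k) K →ₗ[K] (Fin k × Fin k → K) where
  toFun M := fun p => M p.1 p.2
  map_add' _ _ := rfl
  map_smul' _ _ := rfl

theorem cn_eq : cn K k n = finrank K (Submodule.span K (Set.range (xw K k n))) := by
  have h := finrank_words (K := K) (k := k) (n := n) LinearMap.id (coordL K k) (by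
    intro M N h
    ext i j
    exact congrFun h (i, j))
  exact h

/-- coordinates modulo scalars -/
def coordZ (z : Fin k) : Matrix (Fin k) (Fin k) K →ₗ[K] (Fin k × Fin k → K) where
  toFun M := fun p => M p.1 p.2 - if p.1 = p.2 then M z z else 0
  map_add' M N := by
    funext p
    simp only [Matrix.add_apply, Pi.add_apply]
    split_ifs <;> ring
  map_smul' c M := by
    funext p
    simp only [Matrix.smul_apply, Pi.smul_apply, smul_eq_mul, RingHom.id_apply]
    split_ifs <;> ring

lemma ker_coordZ (z : Fin k) : LinearMap.ker (coordZ K k z) =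
    Subalgebra.toSubmodule (Subalgebra.center K (Matrix (Fin k) (Fin k) K)) := by
  ext M
  rw [LinearMap.mem_ker, Subalgebra.mem_toSubmodule]
  constructor
  · intro h
    have h1 : M = (M z z) • (1 : Matrix (Fin k) (Fin k) K) := by
      ext i j
      have h2 : M i j - (if i = j then M z z else 0) = 0 := congrFun h (i, j)
      rw [Matrix.smul_apply, Matrix.one_apply, smul_eq_mul]
      rw [sub_eq_zero] at h2
      rw [h2]
      split_ifs <;> simp
    rw [h1]
    exact Subalgebra.smul_mem _ (Subalgebra.one_mem _) _
  · intro h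
    rw [Subalgebra.mem_center_iff] at h
    obtain ⟨c, hc⟩ := Matrix.mem_range_scalar_of_commute_single (M := M) (fun i j _ => h _)
    funext p
    rw [← hc]
    show (Matrix.scalar (Fin k) c) p.1 p.2 - (if p.1 = p.2 then (Matrix.scalar (Fin k) c) z z
      else 0) = 0
    simp only [Matrix.scalar_apply, Matrix.diagonal_apply]
    split_ifs <;> simp_all

theorem czn_eq (z : Fin k) :
    czn K k n = finrank K (Submodule.span K (Set.range (zw K k n z))) := by
  have h := finrank_words (K := K) (k := k) (n := n)
    (Submodule.mkQ (Subalgebra.toSubmodule (Subalgebra.center K (Matrix (Fin k) (Fin k) K))))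
    (Submodule.liftQ _ (coordZ K k z) (ker_coordZ K k z).ge) (by
      rw [← LinearMap.ker_eq_bot]
      apply Submodule.ker_liftQ_eq_bot
      exact (ker_coordZ K k z).le)
  exact h

theorem cn_field : cn K k n = cn ℝ k n := by
  rw [cn_eq, cn_eq, finrank_xw K, finrank_xw ℝ]

theorem czn_field (hk : 1 ≤ k) : czn K k n = czn ℝ k n := by
  rw [czn_eq K k n ⟨0, hk⟩, czn_eq ℝ k n ⟨0, hk⟩, finrank_zw K, finrank_zw ℝ]

end Final

end Pool.Agent.L0h61.AED
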