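import Mathlib
import Pool.Agent.L0h61.AED.MainReal
import Pool.Agent.L0h61.AED.Transfer

/-!
Assembly: the ratio of central to ordinary codimensions of `k × k` matrices tends to `1 - 1/k^2`.
-/

set_option autoImplicit false

namespace Pool.Agent.L0h61.AED

open Module Matrix Filter Topology

lemma cn_real (k n : ℕ) : cn ℝ k n = finrank ℝ (SS k n) := rfl

lemma czn_real (k n : ℕ) : czn ℝ k n + finrank ℝ (DD k n) = finrank ℝ (SS k n) := by
  let Z := Subalgebra.toSubmodule (Subalgebra.center ℝ (Matrix (Fin k) (Fin k) ℝ))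
  let Λ : ((Fin n → Mk k) → Mk k) →ₗ[ℝ] ((Fin n → Mk k) → (Mk k ⧸ Z)) :=
    { toFun := fun g x => Z.mkQ (g x)
      map_add' := by intro g h; funext x; simp
      map_smul' := by intro c g; funext x; simp }
  have h1 := LinearMap.finrank_range_add_finrank_ker (Λ.domRestrict (SS k n))
  have h2 : finrank ℝ (LinearMap.range (Λ.domRestrict (SS k n))) = czn ℝ k n := by
    rw [LinearMap.range_domRestrict]
    unfold SS
    rw [Submodule.map_span, ← Set.range_comp]
    rfl
  have h3 : finrank ℝ (LinearMap.ker (Λ.domRestrict (SS k n))) = finrank ℝ (DD k n) := by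
    refine LinearEquiv.finrank_eq
      { toFun := fun g => ⟨g.1.1, g.1.2, fun x => ?_⟩
        invFun := fun g => ⟨⟨g.1, g.2.1⟩, ?_⟩
        map_add' := fun _ _ => rfl
        map_smul' := fun _ _ => rfl
        left_inv := fun _ => rfl
        right_inv := fun _ => rfl }
    · have h4 : Z.mkQ (g.1.1 x) = 0 := congrFun (LinearMap.mem_ker.mp g.2) x
      rw [Submodule.mkQ_apply, Submodule.Quotient.mk_eq_zero] at h4
      exact h4
    · rw [LinearMap.mem_ker]
      funext x
      show Z.mkQ (g.1 x) = 0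
      rw [Submodule.mkQ_apply, Submodule.Quotient.mk_eq_zero]
      exact g.2.2 x
  rw [h2, h3] at h1
  exact h1

theorem limit_ge_two (F : Type) [Field F] [CharZero F] (k : ℕ) (hk : 2 ≤ k) :
    Tendsto (fun n : ℕ => (czn F k n : ℝ) / (cn F k n : ℝ)) atTop (𝓝 (1 - 1 / (k : ℝ) ^ 2)) := by
  refine (main_real hk).congr fun n => ?_
  rw [czn_field F k n (by omega), cn_field F k n, cn_real]
  congr 1
  have := czn_real k n
  have h2 : (czn ℝ k n : ℝ) + (finrank ℝ (DD k n) : ℝ) = (finrank ℝ (SS k n) : ℝ) := by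
    exact_mod_cast this
  linarith

theorem limit_one (F : Type) [Field F] [CharZero F] (n : ℕ) : czn F 1 n = 0 := by
  have hZ : Subalgebra.toSubmodule (Subalgebra.center F (Matrix (Fin 1) (Fin 1) F)) = ⊤ := by
    rw [eq_top_iff]
    intro M _
    rw [Subalgebra.mem_toSubmodule, Subalgebra.mem_center_iff]
    intro N
    ext i j
    fin_cases i
    fin_cases j
    simp [Matrix.mul_apply, mul_comm]
  haveI : Subsingleton (Matrix (Fin 1) (Fin 1) F ⧸
      Subalgebra.toSubmodule (Subalgebra.center F (Matrix (Fin 1) (Fin 1) F))) := by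
    rw [hZ]
    infer_instance
  unfold czn
  exact finrank_zero_of_subsingleton

/-- The ratio of central to ordinary codimensions of `k × k` matrices tends to `1 - 1/k^2`. -/
theorem limit_all (F : Type) [Field F] [CharZero F] (k : ℕ) (hk : 1 ≤ k) :
    Tendsto (fun n : ℕ => (czn F k n : ℝ) / (cn F k n : ℝ)) atTop (𝓝 (1 - 1 / (k : ℝ) ^ 2)) := by
  rcases Nat.lt_or_ge k 2 with h | h
  · have h1 : k = 1 := by omega
    subst h1
    have : (fun n : ℕ => (czn F 1 n : ℝ) / (cn F 1 n : ℝ)) = fun _ => 0 := by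
      funext n
      rw [limit_one]
      simp
    rw [this]
    norm_num
  · exact limit_ge_two F k h

end Pool.Agent.L0h61.AED
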